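import Pool.Agent.Y677.SM.EC
import Pool.Agent.TH941.Newform

/-! Modular elliptic curves over the rationals have mean square one: Rankin and Selberg. -/

set_option autoImplicit false
set_option linter.unusedSectionVars false

namespace Pool.Agent.Y677.SM

open Filter Topology Pool.Agent.H341R2 NumberField IsDedekindDomain
  Pool.Agent.W540.BE CongruenceSubgroup
open Pool.Agent.W165.RS (ac)
open scoped MatrixGroups

theorem nm_rat (v : HeightOneSpectrum (𝓞 ℚ)) :
    nm ℚ v = (Rat.HeightOneSpectrum.primesEquiv v : ℕ) := by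
  have h1 := Rat.HeightOneSpectrum.span_natGenerator v
  have h2 : (Rat.HeightOneSpectrum.primesEquiv v : ℕ) = Rat.HeightOneSpectrum.natGenerator v := rfl
  rw [h2]
  unfold nm
  have e1 := Ideal.quotientEquiv v.asIdeal
    (Ideal.span {(Rat.HeightOneSpectrum.natGenerator v : ℤ)}) (Rat.IsIntegralClosure.intEquiv (𝓞 ℚ)) h1
  have e2 := Int.quotientSpanNatEquivZMod (Rat.HeightOneSpectrum.natGenerator v)
  rw [Ideal.absNorm_apply, Submodule.cardQuot_apply, Nat.card_congr e1.toEquiv,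
    Nat.card_congr e2.toEquiv, Nat.card_zmod]

variable {N : ℕ} [NeZero N] {f : CuspForm (Gamma0 N : Subgroup (GL (Fin 2) ℝ)) 2}

theorem gg_le (hf : TH941.Hecke f) {p : ℕ} (hp : p.Prime) : TH941.gg f p ≤ 4 := by
  have hp0 : (0 : ℝ) < p := by exact_mod_cast hp.pos
  unfold TH941.gg
  rw [div_le_iff₀ hp0]
  by_cases h : p ∣ N
  · have h1 := hf.bad p hp h
    have h2 := pow_le_pow_left₀ (norm_nonneg _) h1 2
    have h3 : (1 : ℝ) ≤ p := by exact_mod_cast hp.one_lt.le
    linarith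
  · have h1 := hf.good p hp h
    have h2 := pow_le_pow_left₀ (norm_nonneg _) h1 2
    rw [mul_pow, Real.sq_sqrt hp0.le] at h2
    linarith

/-- **Rankin and Selberg** for an elliptic curve over `ℚ` with a newform. -/
theorem ms_newform (hf : TH941.Hecke f) (W : WeierstrassCurve (𝓞 ℚ))
    (hW : ∀ᶠ v : HeightOneSpectrum (𝓞 ℚ) in cofinite, ac f (nm ℚ v) = (trv W v : ℂ)) :
    Tendsto (fun ε : ℝ => (∑' v : HeightOneSpectrum (𝓞 ℚ),
      (trv W v : ℝ) ^ 2 / (nm ℚ v : ℝ) ^ (2 + ε)) / Real.log (1 / ε)) (𝓝[>] 0) (𝓝 1) := by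
  have hN : NormSys (nm ℚ) := normSys
  have hpr : ∀ v : HeightOneSpectrum (𝓞 ℚ), (nm ℚ v).Prime := fun v => by
    rw [nm_rat]
    exact (Rat.HeightOneSpectrum.primesEquiv v).2
  set φ : HeightOneSpectrum (𝓞 ℚ) → ℝ := fun v => TH941.gg f (nm ℚ v) with hφ
  have hb : ∀ v, |φ v| ≤ 4 := fun v => by
    rw [hφ]
    simp only
    rw [abs_of_nonneg (TH941.gg_nonneg f _)]
    exact gg_le hf (hpr v)
  have h1 : ∀ᶠ v in cofinite, φ v = (trv W v : ℝ) ^ 2 / nm ℚ v := by
    filter_upwards [hW] with v hv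
    rw [hφ]
    simp only
    unfold TH941.gg
    rw [hv, Complex.norm_intCast, sq_abs]
  obtain ⟨C, hC⟩ := EP_change hN hb h1
  have h4 : ∀ ε : ℝ, (∑' v : HeightOneSpectrum (𝓞 ℚ),
      (trv W v : ℝ) ^ 2 / (nm ℚ v : ℝ) ^ (2 + ε)) =
      EP (nm ℚ) ε fun v => (trv W v : ℝ) ^ 2 / nm ℚ v := by
    intro ε
    unfold EP
    refine tsum_congr fun v => ?_
    have h0 : (0 : ℝ) < nm ℚ v := by exact_mod_cast W353.L1.nm_pos v
    rw [show (2 + ε : ℝ) = 1 + (1 + ε) by ring, Real.rpow_add h0, Real.rpow_one,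
      Real.rpow_neg h0.le]
    field_simp
  -- the limit
  obtain ⟨D, hD⟩ := hf.cr_limit
  have h5 : ∀ ε : ℝ, 0 < ε → EP (nm ℚ) ε φ = lam ε + ∑' n : ℕ, TH941.cr f n * (n : ℝ) ^ (-ε) := by
    intro ε hε
    have e1 : EP (nm ℚ) ε φ = ∑' p : Nat.Primes, TH941.gg f p * (p : ℝ) ^ (-(1 + ε)) := by
      unfold EP
      rw [← (Rat.HeightOneSpectrum.primesEquiv (R := 𝓞 ℚ)).tsum_eq]
      refine tsum_congr fun v => ?_
      rw [hφ]
      simp only
      rw [nm_rat]
    have e2 : ∑' n : ℕ, TH941.cr f n * (n : ℝ) ^ (-ε) =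
        ∑' p : Nat.Primes, TH941.cr f p * (p : ℝ) ^ (-ε) := by
      symm
      refine tsum_subtype_eq_of_support_subset (s := {p : ℕ | p.Prime})
        (f := fun n : ℕ => TH941.cr f n * (n : ℝ) ^ (-ε)) fun n hn => ?_
      by_contra h
      apply hn
      have : TH941.cr f n = 0 := by
        unfold TH941.cr
        exact if_neg h
      simp only
      rw [this, zero_mul]
    have hs0 : Summable fun p : Nat.Primes => (p : ℝ) ^ (-(1 + ε)) :=
      Nat.Primes.summable_rpow.2 (by linarith)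
    have e3 : ∀ p : Nat.Primes, TH941.gg f p * (p : ℝ) ^ (-(1 + ε)) =
        (p : ℝ) ^ (-(1 + ε)) + TH941.cr f p * (p : ℝ) ^ (-ε) := by
      intro p
      have hp0 : (0 : ℝ) < (p : ℕ) := by exact_mod_cast p.2.pos
      unfold TH941.cr
      rw [if_pos p.2, show -(1 + ε) = -ε - 1 by ring, Real.rpow_sub_one hp0.ne']
      field_simp
      ring
    have hs1 : Summable fun p : Nat.Primes => TH941.gg f p * (p : ℝ) ^ (-(1 + ε)) := by
      refine Summable.of_norm_bounded (hs0.mul_left 4) fun p => ?_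
      rw [Real.norm_eq_abs, abs_of_nonneg (mul_nonneg (TH941.gg_nonneg f _) (by positivity))]
      exact mul_le_mul_of_nonneg_right (gg_le hf p.2) (by positivity)
    have hs2 : Summable fun p : Nat.Primes => TH941.cr f p * (p : ℝ) ^ (-ε) := by
      have := hs1.sub hs0
      refine this.congr fun p => ?_
      rw [e3]
      ring
    rw [e1, e2, tsum_congr e3, hs0.tsum_add hs2]
    rfl
  have h6 : Tendsto (fun ε : ℝ => EP (nm ℚ) ε φ / lam ε) (𝓝[>] 0) (𝓝 1) := by
    have h7 : Tendsto (fun ε : ℝ => 1 + (∑' n : ℕ, TH941.cr f n * (n : ℝ) ^ (-ε)) / lam ε)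
        (𝓝[>] 0) (𝓝 (1 + 0)) := (hD.div_atTop lam_tendsto).const_add 1
    rw [add_zero] at h7
    refine h7.congr' ?_
    filter_upwards [lam_tendsto.eventually_gt_atTop 0, self_mem_nhdsWithin] with ε h8 h9
    rw [h5 ε h9, add_div, div_self h8.ne']
  have h7 := (norm_change (a := 1) hC (EP_lam_bound hb)).1 h6
  exact h7.congr fun ε => by rw [h4]

end Pool.Agent.Y677.SM
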