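import Pool.Agent.Y677.SM.EC

/-! All Artin twists of an elliptic curve with mean square one: the edge of the half-plane of absolute
convergence. -/

set_option autoImplicit false
set_option linter.unusedSectionVars false

namespace Pool.Agent.Y677.SM

open Complex Filter Topology ComplexConjugate Pool.Agent.H341R2 NumberField IsDedekindDomain
  Pool.Agent.W401.Cheb Pool.Agent.W540.BE Pool.Agent.W353.L1 Polynomial

theorem main (F : Type) [Field F] [NumberField F] (W : WeierstrassCurve (𝓞 F)) (hΔ : W.Δ ≠ 0)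
    (hM : Tendsto (fun ε : ℝ => (∑' v : HeightOneSpectrum (𝓞 F),
      (trv W v : ℝ) ^ 2 / (nm F v : ℝ) ^ (2 + ε)) / Real.log (1 / ε)) (𝓝[>] 0) (𝓝 1))
    {κ : Type} [Fintype κ] (n : κ → ℕ)
    (ρ : ∀ k, Representation ℂ (GK F) (Fin (n k) → ℂ))
    (hopen : ∀ k, ∃ U : Subgroup (GK F), IsOpen (U : Set (GK F)) ∧ ∀ u ∈ U, ρ k u = 1)
    (τ : κ → ℝ) (B : κ → HeightOneSpectrum (𝓞 F) → ℂ[X])
    (hB : ∀ k, ∀ᶠ v in cofinite, ∀ σ : GK F, IsFrob v σ → ∀ z : ℂ,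
      (B k v).eval z = LinearMap.det (1 - ((trv W v : ℂ) * z) • ρ k σ⁻¹ +
        (((nm F v : ℕ) : ℂ) * z ^ 2) • (ρ k σ⁻¹) ^ 2))
    (hB0 : ∀ k v, (B k v).eval (((nm F v : ℕ) : ℂ) ^
      (-(((1 / 2 : ℝ) : ℂ) + 1 + τ k * I : ℂ))) ≠ 0)
    (L : κ → ℂ → ℂ)
    (hL : ∀ k, ∀ s : ℂ, (1 / 2 : ℝ) + 1 < s.re →
      L k s = ∏' v, ((B k v).eval (((nm F v : ℕ) : ℂ) ^ (-s)))⁻¹)
    (x : κ → ℝ → ℝ) (hx : ∀ k ε, x k ε =
      Real.log ‖L k (((1 / 2 : ℝ) : ℂ) + 1 + τ k * I + ε)‖ / Real.log (1 / ε)) :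
    (∀ k, ∀ᶠ ε : ℝ in 𝓝[>] 0, L k (((1 / 2 : ℝ) : ℂ) + 1 + τ k * I + ε) ≠ 0) ∧
    (∀ C η : ℝ, 0 < η → ∀ᶠ ε : ℝ in 𝓝[>] 0, ∀ c : κ → ℝ, (∀ k, |c k| ≤ C) →
      (∑ k, c k * x k ε) ^ 2 ≤
        (∑ k, ∑ l, (c k * c l) * pair (ρ k) (τ k) (ρ l) (τ l)) + η) ∧
    (∀ k, (ρ k).IsIrreducible → (τ k ≠ 0 ∨ ∃ g, ((ρ k).character g).im ≠ 0) →
      ∀ η : ℝ, 0 < η → ∀ᶠ ε : ℝ in 𝓝[>] 0, |x k ε| ≤ 1 / Real.sqrt 2 + η) ∧
    (∀ k, (ρ k).IsIrreducible → τ k = 0 → 3 ≤ n k → ∀ U : Subgroup (GK F), U.Normal →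
      IsOpen (U : Set (GK F)) → (∀ u ∈ U, ρ k u = 1) →
      ∀ η : ℝ, 0 < η → ∀ᶠ ε : ℝ in 𝓝[>] 0,
        |x k ε| ≤ 1 - ((n k : ℝ) - 2) ^ 2 / (2 * Nat.card (GK F ⧸ U)) + η) ∧
    (∀ K : Finset κ, (∀ k ∈ K, (ρ k).IsIrreducible) →
      (∀ k ∈ K, ∀ l ∈ K, k ≠ l → τ k = τ l → IsEmpty ((ρ k).Equiv (ρ l))) →
      ∀ η : ℝ, 0 < η → ∀ᶠ ε : ℝ in 𝓝[>] 0, ∑ k ∈ K, x k ε ^ 2 ≤ 1 + η) ∧
    (∀ Λ : κ → ℂ → ℂ, (∀ k, MeromorphicAt (Λ k) (((1 / 2 : ℝ) : ℂ) + 1 + τ k * I) ∧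
      ∀ᶠ s in 𝓝 (((1 / 2 : ℝ) : ℂ) + 1 + τ k * I : ℂ), (1 / 2 : ℝ) + 1 < s.re →
        Λ k s = L k s) →
      ∃ m : κ → ℤ,
        (∀ k, meromorphicOrderAt (Λ k) (((1 / 2 : ℝ) : ℂ) + 1 + τ k * I) = m k) ∧
        (∀ c : κ → ℝ, (∑ k, c k * m k) ^ 2 ≤
          ∑ k, ∑ l, (c k * c l) * pair (ρ k) (τ k) (ρ l) (τ l)) ∧
        (∀ k, (ρ k).IsIrreducible →
          (τ k ≠ 0 ∨ (∃ g, ((ρ k).character g).im ≠ 0) ∨ 3 ≤ n k) → m k = 0) ∧
        (∀ K : Finset κ, (∀ k ∈ K, (ρ k).IsIrreducible) →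
          (∀ k ∈ K, ∀ l ∈ K, k ≠ l → τ k = τ l → IsEmpty ((ρ k).Equiv (ρ l))) →
          ∑ k ∈ K, |m k| ≤ 1) ∧
        (∀ k, (ρ k).IsIrreducible → m k ≠ 0 →
          ∀ σ : HeightOneSpectrum (𝓞 F) → GK F, (∀ v, IsFrob v (σ v)) →
          Tendsto (fun ε : ℝ => (∑' v : HeightOneSpectrum (𝓞 F),
            ((trv W v : ℝ) / Real.sqrt (nm F v) + m k * ((ρ k).character (σ v)).re) ^ 2 /
              (nm F v : ℝ) ^ (1 + ε)) / Real.log (1 / ε)) (𝓝[>] 0) (𝓝 0))) := by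
  classical
  -- a common open normal subgroup
  set Φ : GK F →* (∀ k : κ, Module.End ℂ (Fin (n k) → ℂ)) := MonoidHom.pi fun k : κ => ρ k with hΦ
  set U : Subgroup (GK F) := Φ.ker with hU
  have hUmem : ∀ g : GK F, g ∈ U ↔ ∀ k, ρ k g = 1 := by
    intro g
    rw [hU, MonoidHom.mem_ker, funext_iff]
    exact ⟨fun h k => h k, fun h k => h k⟩
  have hkeropen : ∀ k, IsOpen {g : GK F | ρ k g = 1} := by
    intro k
    obtain ⟨V, hV, hVρ⟩ := hopen k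
    have h1 : V ≤ (ρ k).ker := fun u hu => hVρ u hu
    exact Subgroup.isOpen_mono h1 hV
  have hUopen : IsOpen (U : Set (GK F)) := by
    have : (U : Set (GK F)) = ⋂ k, {g : GK F | ρ k g = 1} := by
      ext g
      rw [SetLike.mem_coe, hUmem, Set.mem_iInter]
      rfl
    rw [this]
    exact isOpen_iInter_of_finite hkeropen
  have hfinQ : Finite (GK F ⧸ U) := Subgroup.quotient_finite_of_isOpen U hUopen
  have hUρ : ∀ k, ∀ u ∈ U, ρ k u = 1 := fun k u hu => (hUmem u).1 hu k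
  have hN : NormSys (nm F) := normSys
  obtain ⟨α, hα, hreal, hsum, hdet⟩ := ec_main' W hΔ n ρ B hB
  have hM' := (mean_square_iff hα hsum 1).2 hM
  choose σ hσ using exists_isFrob (F := F)
  -- the sizes, for every choice of Frobenius elements
  have hsz : ∀ (σ : HeightOneSpectrum (𝓞 F) → GK F), (∀ v, IsFrob v (σ v)) → ∀ k,
      (∀ᶠ ε : ℝ in 𝓝[>] 0, L k (((1 / 2 : ℝ) : ℂ) + 1 + τ k * I + ε) ≠ 0) ∧
      Tendsto (fun ε : ℝ => (EP (nm F) ε fun v => tr (1 / 2) α v * gg σ (ρ k) (τ k) v) / lam ε -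
        x k ε) (𝓝[>] 0) (𝓝 0) := by
    intro σ hσ k
    have h1 := size_corr (1 / 2) α hα hreal U (ρ k) (hUρ k) (τ k) (B k) (hdet k)
      (hB0 k) (L k) (hL k) σ hσ
    refine ⟨h1.1, h1.2.congr fun ε => ?_⟩
    rw [hx]
    congr 2
    refine EP_congr fun v => ?_
    rw [Complex.re_ofReal_mul]
    rfl
  have hxσ := fun k => (hsz σ hσ k).2
  have hgram : ∀ (K : Finset κ) (C η : ℝ), 0 < η → ∀ᶠ ε : ℝ in 𝓝[>] 0, ∀ c : κ → ℝ,
      (∀ k ∈ K, |c k| ≤ C) → (∑ k ∈ K, c k * x k ε) ^ 2 ≤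
        (∑ k ∈ K, ∑ l ∈ K, (c k * c l) * pair (ρ k) (τ k) (ρ l) (τ l)) + η := by
    intro K C η hη
    have h1 := gramS hN (EP_one F) K (tr (1 / 2) α) (fun k => gg σ (ρ k) (τ k))
      (tr_le_two α) (fun k => (n k : ℝ)) (fun k v => abs_gg_le U σ (ρ k) (hUρ k) (τ k) v)
      hM' (fun k l => pair (ρ k) (τ k) (ρ l) (τ l))
      (fun k _ l _ => pair_lim U hUopen σ hσ (ρ k) (hUρ k) (τ k) (ρ l) (hUρ l) (τ l))
      x (fun k _ => hxσ k) C hη
    filter_upwards [h1] with ε h2 c hc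
    have := h2 c hc
    rwa [one_mul] at this
  have hhalf : ∀ k, (ρ k).IsIrreducible → (τ k ≠ 0 ∨ ∃ g, ((ρ k).character g).im ≠ 0) →
      ∀ η : ℝ, 0 < η → ∀ᶠ ε : ℝ in 𝓝[>] 0, |x k ε| ≤ 1 / Real.sqrt 2 + η :=
    fun k hi hc η hη => irr_half α hM' σ hσ U hUopen (ρ k) (hUρ k) (τ k) (x k) (hxσ k) hi hc hη
  have hdim : ∀ k, (ρ k).IsIrreducible → τ k = 0 → 3 ≤ n k → ∀ U : Subgroup (GK F), U.Normal →
      IsOpen (U : Set (GK F)) → (∀ u ∈ U, ρ k u = 1) →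
      ∀ η : ℝ, 0 < η → ∀ᶠ ε : ℝ in 𝓝[>] 0,
        |x k ε| ≤ 1 - ((n k : ℝ) - 2) ^ 2 / (2 * Nat.card (GK F ⧸ U)) + η := by
    intro k hi hτ hn V hVn hV hVρ η hη
    have : Finite (GK F ⧸ V) := Subgroup.quotient_finite_of_isOpen V hV
    exact irr_dim α hM' σ hσ V hV (ρ k) hVρ (τ k) (x k) (hxσ k) hi hτ (by omega) hη
  have hbes : ∀ K : Finset κ, (∀ k ∈ K, (ρ k).IsIrreducible) →
      (∀ k ∈ K, ∀ l ∈ K, k ≠ l → τ k = τ l → IsEmpty ((ρ k).Equiv (ρ l))) →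
      ∀ η : ℝ, 0 < η → ∀ᶠ ε : ℝ in 𝓝[>] 0, ∑ k ∈ K, x k ε ^ 2 ≤ 1 + η := by
    intro K hirr hne η hη
    -- boundedness
    have hbd : ∀ᶠ ε : ℝ in 𝓝[>] 0, ∀ k ∈ K, |x k ε| ≤ 2 := by
      rw [Filter.eventually_all_finset]
      intro k hk
      filter_upwards [hgram {k} 1 1 one_pos] with ε h1
      have h2 := h1 (fun _ => 1) (fun _ _ => by simp)
      simp only [Finset.sum_singleton, one_mul] at h2
      have h3 := pair_self_le U (ρ k) (hUρ k) (hirr k hk) (τ k)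
      have h4 : |x k ε| ^ 2 ≤ 2 ^ 2 := by
        rw [sq_abs]
        linarith
      exact (pow_le_pow_iff_left₀ (abs_nonneg _) (by norm_num) (by norm_num)).1 h4
    filter_upwards [hbd, hgram K 2 η hη] with ε h1 h2
    have h3 := h2 (fun k => x k ε) h1
    have h4 := pair_le_herm U hUopen K ρ hUρ τ (fun k => x k ε)
    have h5 : ∑ k ∈ K, ∑ l ∈ K, (x k ε * x l ε) * herm (ρ k) (τ k) (ρ l) (τ l) =
        ∑ k ∈ K, x k ε ^ 2 := by
      refine Finset.sum_congr rfl fun k hk => ?_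
      rw [Finset.sum_eq_single_of_mem k hk (fun l hl hlk => ?_)]
      · unfold herm
        rw [if_pos rfl, finrank_end_irr (ρ k) (hirr k hk)]
        push_cast
        ring
      · unfold herm
        split_ifs with h6
        · rw [finrank_hom_irr (ρ k) (ρ l) (hirr k hk) (hirr l hl) (hne k hk l hl hlk.symm h6)]
          simp
        · rw [mul_zero]
    rw [h5] at h4
    have h6 : ∑ k ∈ K, x k ε * x k ε = ∑ k ∈ K, x k ε ^ 2 :=
      Finset.sum_congr rfl fun k _ => (sq _).symm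
    rw [h6] at h3
    set S := ∑ k ∈ K, x k ε ^ 2 with hS
    by_contra hcon
    push Not at hcon
    nlinarith
  refine ⟨fun k => (hsz σ hσ k).1, fun C η hη => ?_, hhalf, hdim, hbes, fun Λ hΛ => ?_⟩
  · filter_upwards [hgram Finset.univ C η hη] with ε h c hc
    exact h c fun k _ => hc k
  -- the orders
  have hord : ∀ k, ∃ m : ℤ,
      meromorphicOrderAt (Λ k) (((1 / 2 : ℝ) : ℂ) + 1 + τ k * I) = m ∧
      Tendsto (x k) (𝓝[>] 0) (𝓝 (-(m : ℝ))) := by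
    intro k
    have hev : ∀ᶠ ε : ℝ in 𝓝[>] 0, Λ k (((1 / 2 : ℝ) : ℂ) + 1 + τ k * I + ε) =
        L k (((1 / 2 : ℝ) : ℂ) + 1 + τ k * I + ε) := by
      have h4 := (path_tendsto' (((1 / 2 : ℝ) : ℂ) + 1 + τ k * I : ℂ)).eventually (hΛ k).2
      filter_upwards [h4, self_mem_nhdsWithin] with ε h5 h6
      have hε : (0 : ℝ) < ε := h6
      refine h5 ?_
      have e : ((((1 / 2 : ℝ) : ℂ) + 1 + τ k * I) + (ε : ℂ)).re = 1 / 2 + 1 + ε := by simp
      rw [e]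
      linarith
    have hne : ∀ᶠ ε : ℝ in 𝓝[>] 0, Λ k (((1 / 2 : ℝ) : ℂ) + 1 + τ k * I + ε) ≠ 0 := by
      filter_upwards [hev, (hsz σ hσ k).1] with ε h5 h6
      rw [h5]
      exact h6
    obtain ⟨m, hm1, hm2⟩ := order_of_size (hΛ k).1 hne
    refine ⟨m, hm1, hm2.congr' ?_⟩
    filter_upwards [hev] with ε h5
    rw [h5, hx]
  choose m hm1 hm2 using hord
  have habs : ∀ k, Tendsto (fun ε => |x k ε|) (𝓝[>] 0) (𝓝 |(m k : ℝ)|) := by
    intro k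
    have := (hm2 k).abs
    rwa [abs_neg] at this
  have hzero : ∀ k, (ρ k).IsIrreducible →
      (τ k ≠ 0 ∨ (∃ g, ((ρ k).character g).im ≠ 0) ∨ 3 ≤ n k) → m k = 0 := by
    intro k hi hc
    have hlt : |(m k : ℝ)| < 1 := by
      by_cases hc' : τ k ≠ 0 ∨ ∃ g, ((ρ k).character g).im ≠ 0
      · have h1 : |(m k : ℝ)| ≤ 1 / Real.sqrt 2 :=
          le_of_forall_pos_le_add fun η hη => le_of_tendsto (habs k) (hhalf k hi hc' η hη)
        refine lt_of_le_of_lt h1 ?_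
        rw [div_lt_one (by positivity)]
        exact Real.lt_sqrt_of_sq_lt (by norm_num)
      · have hτ : τ k = 0 := by
          by_contra h
          exact hc' (Or.inl h)
        have hn : 3 ≤ n k := by
          rcases hc with h | h | h
          · exact absurd hτ h
          · exact absurd (Or.inr h) hc'
          · exact h
        have h1 : |(m k : ℝ)| ≤ 1 - ((n k : ℝ) - 2) ^ 2 / (2 * Nat.card (GK F ⧸ U)) :=
          le_of_forall_pos_le_add fun η hη => le_of_tendsto (habs k)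
            (hdim k hi hτ hn U inferInstance hUopen (hUρ k) η hη)
        have h2 : (0 : ℝ) < ((n k : ℝ) - 2) ^ 2 / (2 * Nat.card (GK F ⧸ U)) := by
          have h3 : (3 : ℝ) ≤ n k := by exact_mod_cast hn
          have h4 : (0 : ℝ) < Nat.card (GK F ⧸ U) := by exact_mod_cast Nat.card_pos
          have h5 : (0 : ℝ) < ((n k : ℝ) - 2) ^ 2 := by
            have : (0 : ℝ) < (n k : ℝ) - 2 := by linarith
            positivity
          positivity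
        linarith
    have h1 : |m k| < 1 := by exact_mod_cast hlt
    exact Int.abs_lt_one_iff.1 h1
  have hsumsq : ∀ K : Finset κ, (∀ k ∈ K, (ρ k).IsIrreducible) →
      (∀ k ∈ K, ∀ l ∈ K, k ≠ l → τ k = τ l → IsEmpty ((ρ k).Equiv (ρ l))) →
      ∑ k ∈ K, (m k) ^ 2 ≤ 1 := by
    intro K hirr hne
    have h1 : ∑ k ∈ K, (-(m k : ℝ)) ^ 2 ≤ 1 :=
      le_of_forall_pos_le_add fun η hη => le_of_tendsto
        (tendsto_finsetSum _ fun k _ => (hm2 k).pow 2) (hbes K hirr hne η hη)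
    simp only [neg_sq] at h1
    exact_mod_cast h1
  have hsumabs : ∀ K : Finset κ, (∀ k ∈ K, (ρ k).IsIrreducible) →
      (∀ k ∈ K, ∀ l ∈ K, k ≠ l → τ k = τ l → IsEmpty ((ρ k).Equiv (ρ l))) →
      ∑ k ∈ K, |m k| ≤ 1 := by
    intro K hirr hne
    refine le_trans (Finset.sum_le_sum fun k _ => ?_) (hsumsq K hirr hne)
    rcases eq_or_ne (m k) 0 with h | h
    · rw [h]; simp
    · have h1 := Int.one_le_abs h
      nlinarith [sq_abs (m k)]
  refine ⟨m, hm1, fun c => ?_, hzero, hsumabs, fun k hi hmk σ' hσ' => ?_⟩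
  · refine le_of_forall_pos_le_add fun η hη => ?_
    have hlim : Tendsto (fun ε : ℝ => (∑ k, c k * x k ε) ^ 2) (𝓝[>] 0)
        (𝓝 ((∑ k, c k * (-(m k : ℝ))) ^ 2)) :=
      (tendsto_finsetSum _ fun k _ => (hm2 k).const_mul (c k)).pow 2
    have e1 : (∑ k, c k * (-(m k : ℝ))) ^ 2 = (∑ k, c k * m k) ^ 2 := by
      have : ∑ k, c k * (-(m k : ℝ)) = -∑ k, c k * m k := by
        rw [← Finset.sum_neg_distrib]
        exact Finset.sum_congr rfl fun k _ => by ring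
      rw [this, neg_sq]
    rw [e1] at hlim
    refine le_of_tendsto hlim ?_
    filter_upwards [hgram Finset.univ (∑ k, |c k|) η hη] with ε h4
    exact h4 c fun k hk => Finset.single_le_sum (f := fun k => |c k|) (fun k _ => abs_nonneg _) hk
  · -- the exceptional twist
    have hτ : τ k = 0 := by
      by_contra h
      exact hmk (hzero k hi (Or.inl h))
    have h1 : (m k) ^ 2 ≤ 1 := by
      have := hsumsq {k} (fun l hl => by rwa [Finset.mem_singleton.1 hl])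
        (fun a ha b hb hab => by
          rw [Finset.mem_singleton] at ha hb
          exact absurd (ha.trans hb.symm) hab)
      simpa using this
    have h2 : (m k) ^ 2 = 1 := by
      have h3 := Int.one_le_abs hmk
      nlinarith [sq_abs (m k)]
    have h2' : (-(m k : ℝ)) ^ 2 = 1 := by
      rw [neg_sq]
      exact_mod_cast h2
    have hcl := close hN (tr (1 / 2) α) (gg σ' (ρ k) (τ k)) (tr_le_two α)
      (abs_gg_le U σ' (ρ k) (hUρ k) (τ k)) (pair_self_le U (ρ k) (hUρ k) hi (τ k)) hM'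
      (by
        have := pair_lim U hUopen σ' hσ' (ρ k) (hUρ k) (τ k) (ρ k) (hUρ k) (τ k)
        simpa only [← sq] using this)
      (x k) (hsz σ' hσ' k).2 h2' (hm2 k)
    -- change of the normalisation
    have hgr : ∀ v, gg σ' (ρ k) (τ k) v = ((ρ k).character (σ' v)).re := by
      intro v
      unfold gg zz
      rw [hτ]
      have e : ((nm F v : ℕ) : ℂ) ^ (-(((0 : ℝ) : ℂ) * I)) = 1 := by simp
      rw [e, mul_one, ← char_conj_eq U (ρ k) (hUρ k) (σ' v), Complex.conj_re]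
    set φ : HeightOneSpectrum (𝓞 F) → ℝ := fun v =>
      (tr (1 / 2) α v - (-(m k : ℝ)) * gg σ' (ρ k) (τ k) v) ^ 2 with hφ
    have hφb : ∀ v, |φ v| ≤ (2 + n k) ^ 2 := by
      intro v
      rw [hφ]
      simp only
      rw [abs_of_nonneg (sq_nonneg _)]
      have hmabs : |(m k : ℝ)| ≤ 1 := by
        have : |(m k : ℝ)| ^ 2 ≤ 1 ^ 2 := by rw [sq_abs]; rw [neg_sq] at h2'; rw [h2']; norm_num
        exact (pow_le_pow_iff_left₀ (abs_nonneg _) (by norm_num) (by norm_num)).1 this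
      have h7 : |tr (1 / 2) α v - (-(m k : ℝ)) * gg σ' (ρ k) (τ k) v| ≤ 2 + n k := by
        refine (abs_sub _ _).trans (add_le_add (tr_le_two α v) ?_)
        rw [abs_mul, abs_neg]
        calc |(m k : ℝ)| * |gg σ' (ρ k) (τ k) v| ≤ 1 * (n k : ℝ) :=
              mul_le_mul hmabs (abs_gg_le U σ' (ρ k) (hUρ k) (τ k) v) (abs_nonneg _) zero_le_one
          _ = n k := one_mul _
      exact sq_le_sq' (by linarith [abs_le.1 h7]) (abs_le.1 h7).2
    have hch : ∀ᶠ v in cofinite, φ v =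
        ((trv W v : ℝ) / Real.sqrt (nm F v) + m k * ((ρ k).character (σ' v)).re) ^ 2 := by
      filter_upwards [tr_eq_trv hα hsum] with v hv
      rw [hφ]
      simp only
      rw [hv, hgr]
      ring
    obtain ⟨C, hC⟩ := EP_change hN hφb hch
    have h8 := (norm_change (a := 0) hC (EP_lam_bound hφb)).1 hcl
    refine h8.congr fun ε => ?_
    congr 1
    unfold EP
    refine tsum_congr fun v => ?_
    rw [Real.rpow_neg (Nat.cast_nonneg _), div_eq_mul_inv]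

end Pool.Agent.Y677.SM
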