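import Pool.Agent.W353.L1.Core

/-! Second moments: the Cauchy-Schwarz inequality on the edge with the true mean square. -/

set_option autoImplicit false

namespace Pool.Agent.Y677.SM

open Filter Topology Pool.Agent.H341R2 Pool.Agent.W540.BE

section
variable {P : Type*} {N : P → ℕ}

theorem EP_congr {ε : ℝ} {φ ψ : P → ℝ} (h : ∀ p, φ p = ψ p) : EP N ε φ = EP N ε ψ := by
  unfold EP
  exact tsum_congr fun p => by rw [h]

theorem EP_mono (hN : NormSys N) {ε : ℝ} (hε : 0 < ε) {φ ψ : P → ℝ} {A B : ℝ}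
    (hφ : ∀ p, |φ p| ≤ A) (hψ : ∀ p, |ψ p| ≤ B) (h : ∀ p, φ p ≤ ψ p) :
    EP N ε φ ≤ EP N ε ψ := by
  unfold EP
  exact Summable.tsum_le_tsum (fun p => mul_le_mul_of_nonneg_right (h p) (wP_nonneg ε p))
    (summable_EP hN hε hφ) (summable_EP hN hε hψ)

theorem EP_sq (hN : NormSys N) {ε : ℝ} (hε : 0 < ε) {φ ψ : P → ℝ} {A B : ℝ}
    (hφ : ∀ p, |φ p| ≤ A) (hψ : ∀ p, |ψ p| ≤ B) (x y : ℝ) :
    (EP N ε fun p => (x * φ p + y * ψ p) ^ 2) =
      x ^ 2 * (EP N ε fun p => φ p ^ 2) + 2 * (x * y) * (EP N ε fun p => φ p * ψ p) +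
        y ^ 2 * EP N ε fun p => ψ p ^ 2 := by
  have h1 : ∀ p, |x ^ 2 * φ p ^ 2| ≤ x ^ 2 * A ^ 2 := fun p => by
    rw [abs_mul, abs_of_nonneg (sq_nonneg x), abs_of_nonneg (sq_nonneg _)]
    exact mul_le_mul_of_nonneg_left (sq_le_sq' (by linarith [abs_le.1 (hφ p)])
      (abs_le.1 (hφ p)).2) (sq_nonneg x)
  have h2 : ∀ p, |y ^ 2 * ψ p ^ 2| ≤ y ^ 2 * B ^ 2 := fun p => by
    rw [abs_mul, abs_of_nonneg (sq_nonneg y), abs_of_nonneg (sq_nonneg _)]
    exact mul_le_mul_of_nonneg_left (sq_le_sq' (by linarith [abs_le.1 (hψ p)])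
      (abs_le.1 (hψ p)).2) (sq_nonneg y)
  have h3 : ∀ p, |2 * (x * y) * (φ p * ψ p)| ≤ |2 * (x * y)| * (A * B) := fun p => by
    rw [abs_mul, abs_mul (φ p)]
    exact mul_le_mul_of_nonneg_left (mul_le_mul (hφ p) (hψ p) (abs_nonneg _)
      ((abs_nonneg _).trans (hφ p))) (abs_nonneg _)
  have e : ∀ p, (x * φ p + y * ψ p) ^ 2 =
      (x ^ 2 * φ p ^ 2 + 2 * (x * y) * (φ p * ψ p)) + y ^ 2 * ψ p ^ 2 := fun p => by ring
  rw [EP_congr e, EP_add hN hε (φ := fun p => x ^ 2 * φ p ^ 2 + 2 * (x * y) * (φ p * ψ p))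
    (fun p => (abs_add_le _ _).trans (add_le_add (h1 p) (h3 p))) h2,
    EP_add hN hε h1 h3, EP_const_mul, EP_const_mul, EP_const_mul]

theorem cs (hN : NormSys N) {ε : ℝ} (hε : 0 < ε) {φ ψ : P → ℝ} {A B : ℝ}
    (hφ : ∀ p, |φ p| ≤ A) (hψ : ∀ p, |ψ p| ≤ B) :
    (EP N ε fun p => φ p * ψ p) ^ 2 ≤
      (EP N ε fun p => φ p ^ 2) * EP N ε fun p => ψ p ^ 2 := by
  have key : ∀ x : ℝ, 0 ≤ (EP N ε fun p => φ p ^ 2) * (x * x) +
      (2 * EP N ε fun p => φ p * ψ p) * x + EP N ε fun p => ψ p ^ 2 := by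
    intro x
    have h1 := EP_sq hN hε hφ hψ x 1
    have h2 : 0 ≤ EP N ε fun p => (x * φ p + 1 * ψ p) ^ 2 := EP_nonneg fun p => sq_nonneg _
    rw [h1] at h2
    linarith
  have h1 := discrim_le_zero key
  rw [discrim] at h1
  nlinarith

/-- **The Gram inequality with the mean square of `t`.** -/
theorem gramS (hN : NormSys N)
    (hlam : Tendsto (fun ε : ℝ => (EP N ε fun _ => 1) / lam ε) (𝓝[>] 0) (𝓝 1))
    {κ : Type*} (K : Finset κ) (t : P → ℝ) (g : κ → P → ℝ) {b : ℝ}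
    (ht : ∀ p, |t p| ≤ b) (B : κ → ℝ) (hg : ∀ k p, |g k p| ≤ B k) {a : ℝ}
    (hA : Tendsto (fun ε : ℝ => (EP N ε fun p => t p ^ 2) / lam ε) (𝓝[>] 0) (𝓝 a))
    (G : κ → κ → ℝ) (hG : ∀ k ∈ K, ∀ l ∈ K,
      Tendsto (fun ε : ℝ => (EP N ε fun p => g k p * g l p) / lam ε) (𝓝[>] 0) (𝓝 (G k l)))
    (x : κ → ℝ → ℝ) (hx : ∀ k ∈ K, Tendsto (fun ε : ℝ =>
      (EP N ε fun p => t p * g k p) / lam ε - x k ε) (𝓝[>] 0) (𝓝 0))
    (C : ℝ) {η : ℝ} (hη : 0 < η) :
    ∀ᶠ ε : ℝ in 𝓝[>] 0, ∀ c : κ → ℝ, (∀ k ∈ K, |c k| ≤ C) →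
      (∑ k ∈ K, c k * x k ε) ^ 2 ≤ a * (∑ k ∈ K, ∑ l ∈ K, (c k * c l) * G k l) + η := by
  classical
  set y : κ → ℝ → ℝ := fun k ε => (EP N ε fun p => t p * g k p) / lam ε with hy
  set A : ℝ → ℝ := fun ε => (EP N ε fun p => t p ^ 2) / lam ε with hAdef
  set E : κ → κ → ℝ → ℝ := fun k l ε => (EP N ε fun p => g k p * g l p) / lam ε with hE
  -- bounds
  have hyb : ∀ k, ∀ᶠ ε : ℝ in 𝓝[>] 0, |y k ε| ≤ 2 * (b * B k) := by
    intro k
    filter_upwards [hlam.eventually_lt_const (by norm_num : (1 : ℝ) < 2),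
      lam_tendsto.eventually_gt_atTop 0, self_mem_nhdsWithin] with ε h1 h2 h3
    have hε : (0 : ℝ) < ε := h3
    have hb1 : ∀ p, |t p * g k p| ≤ b * B k := fun p => by
      rw [abs_mul]
      exact mul_le_mul (ht p) (hg k p) (abs_nonneg _) ((abs_nonneg _).trans (ht p))
    have h4 : |EP N ε fun p => t p * g k p| ≤ (b * B k) * EP N ε fun _ => 1 := by
      rw [abs_le]
      constructor
      · have h7 := EP_le hN hε (φ := fun p => (-1) * (t p * g k p)) (B := b * B k)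
          (fun p => by rw [abs_mul, abs_neg, abs_one, one_mul]; exact hb1 p) (b := b * B k)
          (fun p => by have := (abs_le.1 (hb1 p)).1; linarith)
        rw [EP_const_mul] at h7
        linarith
      · exact EP_le hN hε hb1 fun p => (le_abs_self _).trans (hb1 p)
    rw [hy]
    simp only
    rw [abs_div, abs_of_pos h2, div_le_iff₀ h2]
    rw [div_lt_iff₀ h2] at h1
    by_cases hP : Nonempty P
    · obtain ⟨p⟩ := hP
      have h5 : 0 ≤ b * B k := (abs_nonneg _).trans (hb1 p)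
      calc |EP N ε fun p => t p * g k p| ≤ (b * B k) * EP N ε fun _ => 1 := h4
        _ ≤ (b * B k) * (2 * lam ε) := mul_le_mul_of_nonneg_left h1.le h5
        _ = _ := by ring
    · rw [not_nonempty_iff] at hP
      exfalso
      have h6 : (EP N ε fun _ => 1) = 0 := by
        unfold EP
        exact tsum_empty
      have h7 := hlam
      have h8 : (fun ε : ℝ => (EP N ε fun _ => 1) / lam ε) = fun _ => 0 := by
        funext ε
        have : (EP N ε fun _ => 1) = 0 := by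
          unfold EP
          exact tsum_empty
        rw [this, zero_div]
      rw [h8] at h7
      have := tendsto_nhds_unique h7 tendsto_const_nhds
      norm_num at this
  have hxb : ∀ k ∈ K, ∀ᶠ ε : ℝ in 𝓝[>] 0, |x k ε| ≤ 2 * (b * B k) + 1 := by
    intro k hk
    filter_upwards [hyb k, (Metric.tendsto_nhds.1 (hx k hk)) 1 one_pos] with ε h1 h2
    rw [Real.dist_eq, sub_zero] at h2
    have h3 := abs_sub_abs_le_abs_sub (x k ε) (y k ε)
    rw [abs_sub_comm] at h3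
    have h4 : |y k ε - x k ε| < 1 := h2
    linarith
  -- the error
  set R : ℝ := ∑ k ∈ K, (2 * (2 * (b * B k)) + 1) with hR
  set δ : ℝ → ℝ := fun ε => C ^ 2 * ((∑ k ∈ K, |y k ε - x k ε|) * R) +
    C ^ 2 * ∑ k ∈ K, ∑ l ∈ K, |A ε * E k l ε - a * G k l| with hδ
  have hδ0 : Tendsto δ (𝓝[>] 0) (𝓝 0) := by
    have h1 : Tendsto (fun ε => ∑ k ∈ K, |y k ε - x k ε|) (𝓝[>] 0) (𝓝 (∑ _k ∈ K, (0 : ℝ))) := by
      refine tendsto_finsetSum _ fun k hk => ?_
      have := (hx k hk).abs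
      rwa [abs_zero] at this
    have h2 : Tendsto (fun ε => ∑ k ∈ K, ∑ l ∈ K, |A ε * E k l ε - a * G k l|) (𝓝[>] 0)
        (𝓝 (∑ _k ∈ K, ∑ _l ∈ K, (0 : ℝ))) := by
      refine tendsto_finsetSum _ fun k hk => tendsto_finsetSum _ fun l hl => ?_
      have := ((hA.mul (hG k hk l hl)).sub_const (a * G k l)).abs
      rwa [sub_self, abs_zero] at this
    have h3 := ((h1.mul_const R).const_mul (C ^ 2)).add (h2.const_mul (C ^ 2))
    simpa using h3
  have ev := hδ0.eventually_lt_const hη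
  have hyb' : ∀ᶠ ε : ℝ in 𝓝[>] 0, ∀ k ∈ K, |y k ε| ≤ 2 * (b * B k) := by
    rw [Filter.eventually_all_finset]
    exact fun k _ => hyb k
  have hxb' : ∀ᶠ ε : ℝ in 𝓝[>] 0, ∀ k ∈ K, |x k ε| ≤ 2 * (b * B k) + 1 := by
    rw [Filter.eventually_all_finset]
    exact hxb
  filter_upwards [ev, hyb', hxb', lam_tendsto.eventually_gt_atTop 0, self_mem_nhdsWithin]
    with ε h1 h2 h3 h4 h5 c hc
  have hε : (0 : ℝ) < ε := h5
  have hC0 : K.Nonempty → 0 ≤ C := fun ⟨k, hk⟩ => (abs_nonneg _).trans (hc k hk)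
  rcases K.eq_empty_or_nonempty with rfl | hne
  · simpa using hη.le
  have hC := hC0 hne
  -- Cauchy-Schwarz
  have hcs : (∑ k ∈ K, c k * y k ε) ^ 2 ≤ A ε * ∑ k ∈ K, ∑ l ∈ K, (c k * c l) * E k l ε := by
    have hbs : ∀ p, |∑ k ∈ K, c k * g k p| ≤ ∑ k ∈ K, |c k| * B k := fun p =>
      (Finset.abs_sum_le_sum_abs _ _).trans (Finset.sum_le_sum fun k _ => by
        rw [abs_mul]
        exact mul_le_mul_of_nonneg_left (hg k p) (abs_nonneg _))
    have h6 := cs hN hε ht hbs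
    have e1 : (EP N ε fun p => t p * ∑ k ∈ K, c k * g k p) =
        ∑ k ∈ K, c k * EP N ε fun p => t p * g k p := by
      have : ∀ p, t p * ∑ k ∈ K, c k * g k p = ∑ k ∈ K, c k * (t p * g k p) := fun p => by
        rw [Finset.mul_sum]
        exact Finset.sum_congr rfl fun k _ => by ring
      rw [EP_congr this, EP_sum hN hε K (fun k p => c k * (t p * g k p))
        (fun k => |c k| * (b * B k)) (fun k _ p => by
          rw [abs_mul, abs_mul (t p)]
          exact mul_le_mul_of_nonneg_left (mul_le_mul (ht p) (hg k p) (abs_nonneg _)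
            ((abs_nonneg _).trans (ht p))) (abs_nonneg _))]
      exact Finset.sum_congr rfl fun k _ => EP_const_mul _ _
    have e2 : (EP N ε fun p => (∑ k ∈ K, c k * g k p) ^ 2) =
        ∑ k ∈ K, ∑ l ∈ K, (c k * c l) * EP N ε fun p => g k p * g l p := by
      have : ∀ p, (∑ k ∈ K, c k * g k p) ^ 2 =
          ∑ k ∈ K, ∑ l ∈ K, (c k * c l) * (g k p * g l p) := fun p => by
        rw [sq, Finset.sum_mul_sum]
        exact Finset.sum_congr rfl fun k _ => Finset.sum_congr rfl fun l _ => by ring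
      have hkl : ∀ k l p, |(c k * c l) * (g k p * g l p)| ≤ |c k * c l| * (B k * B l) :=
        fun k l p => by
          rw [abs_mul, abs_mul (g k p)]
          exact mul_le_mul_of_nonneg_left (mul_le_mul (hg k p) (hg l p) (abs_nonneg _)
            ((abs_nonneg _).trans (hg k p))) (abs_nonneg _)
      rw [EP_congr this, EP_sum hN hε K (fun k p => ∑ l ∈ K, (c k * c l) * (g k p * g l p))
        (fun k => ∑ l ∈ K, |c k * c l| * (B k * B l)) (fun k _ p =>
          (Finset.abs_sum_le_sum_abs _ _).trans (Finset.sum_le_sum fun l _ => hkl k l p))]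
      refine Finset.sum_congr rfl fun k _ => ?_
      rw [EP_sum hN hε K (fun l p => (c k * c l) * (g k p * g l p))
        (fun l => |c k * c l| * (B k * B l)) (fun l _ p => hkl k l p)]
      exact Finset.sum_congr rfl fun l _ => EP_const_mul _ _
    rw [e1, e2] at h6
    have e3 : ∑ k ∈ K, c k * y k ε = (∑ k ∈ K, c k * EP N ε fun p => t p * g k p) / lam ε := by
      rw [Finset.sum_div]
      exact Finset.sum_congr rfl fun k _ => by rw [hy]; ring
    have e4 : ∑ k ∈ K, ∑ l ∈ K, (c k * c l) * E k l ε =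
        (∑ k ∈ K, ∑ l ∈ K, (c k * c l) * EP N ε fun p => g k p * g l p) / lam ε := by
      rw [Finset.sum_div]
      refine Finset.sum_congr rfl fun k _ => ?_
      rw [Finset.sum_div]
      exact Finset.sum_congr rfl fun l _ => by rw [hE]; ring
    rw [e3, e4, hAdef, div_pow]
    have e5 : (EP N ε fun p => t p ^ 2) / lam ε *
        ((∑ k ∈ K, ∑ l ∈ K, (c k * c l) * EP N ε fun p => g k p * g l p) / lam ε) =
        ((EP N ε fun p => t p ^ 2) *
          ∑ k ∈ K, ∑ l ∈ K, (c k * c l) * EP N ε fun p => g k p * g l p) / lam ε ^ 2 := by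
      field_simp
    simp only
    rw [e5]
    exact div_le_div_of_nonneg_right h6 (by positivity)
  -- first error
  have hX : (∑ k ∈ K, c k * x k ε) ^ 2 ≤ (∑ k ∈ K, c k * y k ε) ^ 2 +
      C ^ 2 * ((∑ k ∈ K, |y k ε - x k ε|) * R) := by
    have e1 : (∑ k ∈ K, c k * x k ε) ^ 2 - (∑ k ∈ K, c k * y k ε) ^ 2 =
        (∑ k ∈ K, c k * (x k ε - y k ε)) * (∑ k ∈ K, c k * (x k ε + y k ε)) := by
      have a1 : ∑ k ∈ K, c k * (x k ε - y k ε) = ∑ k ∈ K, c k * x k ε - ∑ k ∈ K, c k * y k ε := by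
        rw [← Finset.sum_sub_distrib]
        exact Finset.sum_congr rfl fun k _ => by ring
      have a2 : ∑ k ∈ K, c k * (x k ε + y k ε) = ∑ k ∈ K, c k * x k ε + ∑ k ∈ K, c k * y k ε := by
        rw [← Finset.sum_add_distrib]
        exact Finset.sum_congr rfl fun k _ => by ring
      rw [a1, a2]
      ring
    have b1 : |∑ k ∈ K, c k * (x k ε - y k ε)| ≤ C * ∑ k ∈ K, |y k ε - x k ε| := by
      rw [Finset.mul_sum]
      refine (Finset.abs_sum_le_sum_abs _ _).trans (Finset.sum_le_sum fun k hk => ?_)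
      rw [abs_mul, abs_sub_comm]
      exact mul_le_mul_of_nonneg_right (hc k hk) (abs_nonneg _)
    have b2 : |∑ k ∈ K, c k * (x k ε + y k ε)| ≤ C * R := by
      rw [hR, Finset.mul_sum]
      refine (Finset.abs_sum_le_sum_abs _ _).trans (Finset.sum_le_sum fun k hk => ?_)
      rw [abs_mul]
      refine mul_le_mul (hc k hk) ?_ (abs_nonneg _) hC
      refine (abs_add_le _ _).trans ?_
      have := h2 k hk
      have := h3 k hk
      linarith
    have b3 : (∑ k ∈ K, c k * x k ε) ^ 2 - (∑ k ∈ K, c k * y k ε) ^ 2 ≤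
        (C * ∑ k ∈ K, |y k ε - x k ε|) * (C * R) := by
      rw [e1]
      refine (le_abs_self _).trans ?_
      rw [abs_mul]
      exact mul_le_mul b1 b2 (abs_nonneg _)
        (mul_nonneg hC (Finset.sum_nonneg fun _ _ => abs_nonneg _))
    have e2 : (C * ∑ k ∈ K, |y k ε - x k ε|) * (C * R) =
        C ^ 2 * ((∑ k ∈ K, |y k ε - x k ε|) * R) := by ring
    rw [e2] at b3
    linarith
  -- second error
  have hY : A ε * ∑ k ∈ K, ∑ l ∈ K, (c k * c l) * E k l ε ≤
      a * (∑ k ∈ K, ∑ l ∈ K, (c k * c l) * G k l) +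
        C ^ 2 * ∑ k ∈ K, ∑ l ∈ K, |A ε * E k l ε - a * G k l| := by
    rw [← sub_le_iff_le_add']
    rw [Finset.mul_sum, Finset.mul_sum, ← Finset.sum_sub_distrib, Finset.mul_sum]
    refine Finset.sum_le_sum fun k hk => ?_
    rw [Finset.mul_sum, Finset.mul_sum, ← Finset.sum_sub_distrib, Finset.mul_sum]
    refine Finset.sum_le_sum fun l hl => ?_
    have e1 : A ε * ((c k * c l) * E k l ε) - a * ((c k * c l) * G k l) =
        (c k * c l) * (A ε * E k l ε - a * G k l) := by ring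
    rw [e1]
    refine (le_abs_self _).trans ?_
    rw [abs_mul, abs_mul (c k), sq]
    exact mul_le_mul_of_nonneg_right (mul_le_mul (hc k hk) (hc l hl) (abs_nonneg _) hC)
      (abs_nonneg _)
  have h6 : δ ε < η := h1
  rw [hδ] at h6
  simp only at h6
  linarith

end

end Pool.Agent.Y677.SM
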