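import Pool.Agent.Y677.SM.Irr

/-! The twists of a curve whose normalised traces of Frobenius have mean square one. -/

set_option autoImplicit false
set_option linter.unusedSectionVars false

namespace Pool.Agent.Y677.SM

open Complex Filter Topology ComplexConjugate Pool.Agent.H341R2 NumberField IsDedekindDomain
  Pool.Agent.W401.Cheb Pool.Agent.W540.BE Pool.Agent.W353.L1 Polynomial

section
variable {P : Type*} {N : P → ℕ}

/-- the refined bound for one function -/
theorem refined (hN : NormSys N) (t g h : P → ℝ) {B : ℝ} (ht : ∀ p, |t p| ≤ 2)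
    (hg : ∀ p, |g p| ≤ B) (h0 : ∀ p, 0 ≤ h p) (hh : ∀ p, h p ≤ max (|g p| - 2) 0)
    {γ θ : ℝ}
    (hA : Tendsto (fun ε : ℝ => (EP N ε fun p => t p ^ 2) / lam ε) (𝓝[>] 0) (𝓝 1))
    (hG : Tendsto (fun ε : ℝ => (EP N ε fun p => g p ^ 2) / lam ε) (𝓝[>] 0) (𝓝 γ))
    (hT : Tendsto (fun ε : ℝ => (EP N ε fun p => h p ^ 2) / lam ε) (𝓝[>] 0) (𝓝 θ))
    (x : ℝ → ℝ) (hx : Tendsto (fun ε : ℝ =>
      (EP N ε fun p => t p * g p) / lam ε - x ε) (𝓝[>] 0) (𝓝 0)) {η : ℝ} (hη : 0 < η) :
    ∀ᶠ ε : ℝ in 𝓝[>] 0, |x ε| ≤ (1 + γ - θ) / 2 + η := by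
  have hb : ∀ p, |h p| ≤ |B| + 2 := fun p => by
    rw [abs_of_nonneg (h0 p)]
    refine (hh p).trans (max_le ?_ (by positivity))
    have := (hg p).trans (le_abs_self B)
    linarith
  have key : ∀ s : ℝ, s = 1 ∨ s = -1 → ∀ᶠ ε : ℝ in 𝓝[>] 0, s * x ε ≤ (1 + γ - θ) / 2 + η := by
    intro s hs
    have hs2 : s ^ 2 = 1 := by rcases hs with rfl | rfl <;> norm_num
    have l1 := ((hA.add hG).sub hT).div_const 2
    have l2 := hx.const_mul s
    rw [mul_zero] at l2
    have ev1 := l1.eventually_lt_const (show (1 + γ - θ) / 2 < (1 + γ - θ) / 2 + η / 2 by linarith)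
    have ev2 := l2.eventually_const_lt (show -(η / 2) < (0 : ℝ) by linarith)
    filter_upwards [ev1, ev2, lam_tendsto.eventually_gt_atTop 0, self_mem_nhdsWithin]
      with ε h1 h2 h3 h4
    have hε : (0 : ℝ) < ε := h4
    have h5 := EP_sq hN hε ht hg 1 (-s)
    have h6 : (EP N ε fun p => h p ^ 2) ≤ EP N ε fun p => (1 * t p + (-s) * g p) ^ 2 := by
      refine EP_mono hN hε (A := (|B| + 2) ^ 2) (B := (2 + |B|) ^ 2) (fun p => ?_) (fun p => ?_)
        fun p => ?_
      · rw [abs_of_nonneg (sq_nonneg _)]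
        exact sq_le_sq' (by linarith [abs_le.1 (hb p)]) (abs_le.1 (hb p)).2
      · rw [abs_of_nonneg (sq_nonneg _)]
        have h7 : |1 * t p + (-s) * g p| ≤ 2 + |B| := by
          refine (abs_add_le _ _).trans (add_le_add ?_ ?_)
          · rw [one_mul]
            exact ht p
          · rw [abs_mul, abs_neg]
            have : |s| = 1 := by rcases hs with rfl | rfl <;> norm_num
            rw [this, one_mul]
            exact (hg p).trans (le_abs_self B)
        exact sq_le_sq' (by linarith [abs_le.1 h7]) (abs_le.1 h7).2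
      · have h7 : h p ≤ |1 * t p + (-s) * g p| := by
          refine (hh p).trans (max_le ?_ (abs_nonneg _))
          have h8 : |(-s) * g p| = |g p| := by
            rw [abs_mul, abs_neg]
            have : |s| = 1 := by rcases hs with rfl | rfl <;> norm_num
            rw [this, one_mul]
          have h9 : |(-s) * g p| ≤ |1 * t p + (-s) * g p| + |1 * t p| := by
            have := abs_sub (1 * t p + (-s) * g p) (1 * t p)
            rwa [add_sub_cancel_left] at this
          rw [h8, one_mul] at h9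
          rw [one_mul] at *
          have := ht p
          linarith
        calc h p ^ 2 ≤ |1 * t p + (-s) * g p| ^ 2 := pow_le_pow_left₀ (h0 p) h7 2
          _ = _ := sq_abs _
    rw [h5] at h6
    have h7 : (EP N ε fun p => h p ^ 2) / lam ε ≤ (EP N ε fun p => t p ^ 2) / lam ε -
        2 * s * ((EP N ε fun p => t p * g p) / lam ε) + (EP N ε fun p => g p ^ 2) / lam ε := by
      rw [div_le_iff₀ h3]
      have e : ((EP N ε fun p => t p ^ 2) / lam ε -
        2 * s * ((EP N ε fun p => t p * g p) / lam ε) + (EP N ε fun p => g p ^ 2) / lam ε) *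
          lam ε = (EP N ε fun p => t p ^ 2) - 2 * s * (EP N ε fun p => t p * g p) +
            EP N ε fun p => g p ^ 2 := by
        field_simp
      rw [e]
      have e2 : (-s) ^ 2 = 1 := by rw [neg_sq, hs2]
      rw [e2] at h6
      linarith
    have h8 : s * ((EP N ε fun p => t p * g p) / lam ε - x ε) =
      s * ((EP N ε fun p => t p * g p) / lam ε) - s * x ε := by ring
    rw [h8] at h2
    linarith
  filter_upwards [key 1 (Or.inl rfl), key (-1) (Or.inr rfl)] with ε h1 h2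
  rw [abs_le]
  constructor <;> linarith

/-- if the correlation is `± 1` then the functions are close -/
theorem close (hN : NormSys N) (t g : P → ℝ) {b B : ℝ} (ht : ∀ p, |t p| ≤ b)
    (hg : ∀ p, |g p| ≤ B) {γ : ℝ} (hγ : γ ≤ 1)
    (hA : Tendsto (fun ε : ℝ => (EP N ε fun p => t p ^ 2) / lam ε) (𝓝[>] 0) (𝓝 1))
    (hG : Tendsto (fun ε : ℝ => (EP N ε fun p => g p ^ 2) / lam ε) (𝓝[>] 0) (𝓝 γ))
    (x : ℝ → ℝ) (hx : Tendsto (fun ε : ℝ =>
      (EP N ε fun p => t p * g p) / lam ε - x ε) (𝓝[>] 0) (𝓝 0)) {s : ℝ} (hs : s ^ 2 = 1)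
    (hxs : Tendsto x (𝓝[>] 0) (𝓝 s)) :
    Tendsto (fun ε : ℝ => (EP N ε fun p => (t p - s * g p) ^ 2) / lam ε) (𝓝[>] 0) (𝓝 0) := by
  have h1 : Tendsto (fun ε : ℝ => (EP N ε fun p => t p * g p) / lam ε) (𝓝[>] 0) (𝓝 s) := by
    have := hx.add hxs
    simpa using this
  have h2 : Tendsto (fun ε : ℝ => (EP N ε fun p => t p ^ 2) / lam ε -
      2 * s * ((EP N ε fun p => t p * g p) / lam ε) +
      s ^ 2 * ((EP N ε fun p => g p ^ 2) / lam ε)) (𝓝[>] 0) (𝓝 (1 - 2 * s * s + s ^ 2 * γ)) :=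
    (hA.sub (h1.const_mul (2 * s))).add (hG.const_mul (s ^ 2))
  have h3 : Tendsto (fun ε : ℝ => (EP N ε fun p => (t p - s * g p) ^ 2) / lam ε) (𝓝[>] 0)
      (𝓝 (1 - 2 * s * s + s ^ 2 * γ)) := by
    refine h2.congr' ?_
    filter_upwards [lam_tendsto.eventually_gt_atTop 0, self_mem_nhdsWithin] with ε h3 h4
    have hε : (0 : ℝ) < ε := h4
    have h5 := EP_sq hN hε ht hg 1 (-s)
    have e : ∀ p, (1 * t p + (-s) * g p) ^ 2 = (t p - s * g p) ^ 2 := fun p => by ring
    rw [EP_congr e] at h5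
    rw [h5]
    field_simp
    ring
  have h4 : 1 - 2 * s * s + s ^ 2 * γ = γ - 1 := by
    have : s * s = 1 := by rw [← sq, hs]
    rw [mul_assoc, this, hs]
    ring
  rw [h4] at h3
  have h5 : 0 ≤ γ - 1 := by
    refine ge_of_tendsto h3 ?_
    filter_upwards [lam_tendsto.eventually_gt_atTop 0] with ε h6
    exact div_nonneg (EP_nonneg fun p => sq_nonneg _) h6.le
  have h6 : γ - 1 = 0 := by linarith
  rwa [h6] at h3

end

section
variable {F : Type} [Field F] [NumberField F]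

/-- the density of the primes with trivial Frobenius class -/
theorem triv_lim (U : Subgroup (GK F)) [U.Normal] (hU : IsOpen (U : Set (GK F)))
    [Finite (GK F ⧸ U)] (σ : HeightOneSpectrum (𝓞 F) → GK F) (hσ : ∀ v, IsFrob v (σ v))
    (a : ℝ) :
    open Classical in
    Tendsto (fun ε : ℝ => (EP (nm F) ε fun v => (if σ v ∈ U then a else 0) ^ 2) / lam ε) (𝓝[>] 0)
      (𝓝 (a ^ 2 / Nat.card (GK F ⧸ U))) := by
  classical
  let _ : Fintype (GK F ⧸ U) := Fintype.ofFinite _
  set ψ : GK F ⧸ U → ℂ := fun q => if q = 1 then ((a ^ 2 : ℝ) : ℂ) else 0 with hψ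
  have hc : ∀ b x, ψ (x * b * x⁻¹) = ψ b := by
    intro b x
    rw [hψ]
    simp only
    have : x * b * x⁻¹ = 1 ↔ b = 1 := by
      constructor
      · intro h
        have h2 : x * b = x := by
          have := congrArg (· * x) h
          simpa using this
        exact mul_eq_left.1 h2
      · rintro rfl
        simp
    simp only [this]
  have hav : avC U ψ = ((a ^ 2 / Nat.card (GK F ⧸ U) : ℝ) : ℂ) := by
    unfold avC
    rw [finsum_eq_sum_of_fintype, hψ]
    simp only [Finset.sum_ite_eq', Finset.mem_univ, if_true]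
    push_cast
    rw [div_eq_inv_mul]
  have h1 := cheb_edge U hU ψ hc _ hav σ hσ 0
  rw [if_pos rfl] at h1
  refine h1.congr fun ε => ?_
  congr 1
  refine EP_congr fun v => ?_
  have h2 : ((nm F v : ℕ) : ℂ) ^ (-(((0 : ℝ) : ℂ) * I)) = 1 := by simp
  rw [h2, mul_one, hψ]
  simp only
  have h3 : (QuotientGroup.mk (σ v) : GK F ⧸ U) = 1 ↔ σ v ∈ U := QuotientGroup.eq_one_iff _
  by_cases h4 : σ v ∈ U
  · rw [if_pos (h3.2 h4), if_pos h4, Complex.ofReal_re]
  · rw [if_neg (fun h5 => h4 (h3.1 h5)), if_neg h4]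
    simp

variable (α : HeightOneSpectrum (𝓞 F) → Fin 2 → ℂ)
    (hα : ∀ᶠ v in cofinite, ∀ j, ‖α v j‖ = (nm F v : ℝ) ^ (1 / 2 : ℝ))
    (hreal : ∀ᶠ v in cofinite, (∑ j, α v j).im = 0)
    (hM : Tendsto (fun ε : ℝ => (EP (nm F) ε fun v => (tr (1 / 2) α v) ^ 2) / lam ε)
      (𝓝[>] 0) (𝓝 1))
    (σ : HeightOneSpectrum (𝓞 F) → GK F) (hσ : ∀ v, IsFrob v (σ v))
    (U : Subgroup (GK F)) [U.Normal] (hU : IsOpen (U : Set (GK F))) [Finite (GK F ⧸ U)]
    {n : ℕ} (ρ : Representation ℂ (GK F) (Fin n → ℂ)) (hρ : ∀ u ∈ U, ρ u = 1)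
    (τ : ℝ) (x : ℝ → ℝ) (hx : Tendsto (fun ε : ℝ => (EP (nm F) ε fun v =>
      tr (1 / 2) α v * gg σ ρ τ v) / lam ε - x ε) (𝓝[>] 0) (𝓝 0))

theorem tr_le_two (v : HeightOneSpectrum (𝓞 F)) : |tr (1 / 2) α v| ≤ 2 := by
  have := abs_tr_le (1 / 2) α v
  simpa using this

include hM hσ hU hρ hx in
/-- bound for an irreducible twist at a non-zero height or with a non-real character -/
theorem irr_half (hi : ρ.IsIrreducible) (hc : τ ≠ 0 ∨ ∃ g, (ρ.character g).im ≠ 0)
    {η : ℝ} (hη : 0 < η) : ∀ᶠ ε : ℝ in 𝓝[>] 0, |x ε| ≤ 1 / Real.sqrt 2 + η := by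
  have hN : NormSys (nm F) := normSys
  have h1 := gramS hN (EP_one F) (Finset.univ : Finset Unit) (tr (1 / 2) α)
    (fun _ => gg σ ρ τ) (tr_le_two α) (fun _ => (n : ℝ)) (fun _ v => abs_gg_le U σ ρ hρ τ v)
    hM (fun _ _ => pair ρ τ ρ τ) (fun _ _ _ _ => pair_lim U hU σ hσ ρ hρ τ ρ hρ τ)
    (fun _ => x) (fun _ _ => hx) 1 (η := η ^ 2) (by positivity)
  filter_upwards [h1] with ε h2
  have h3 := h2 (fun _ => 1) (fun _ _ => by simp)
  simp only [Finset.univ_unique, Finset.sum_singleton, one_mul] at h3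
  rw [pair_self_half U ρ hρ hi τ hc] at h3
  have h4 : |x ε| ^ 2 ≤ (1 / Real.sqrt 2 + η) ^ 2 := by
    rw [sq_abs]
    have h5 : (1 / Real.sqrt 2) ^ 2 = 1 / 2 := by
      rw [div_pow, Real.sq_sqrt (by norm_num)]
      norm_num
    have h6 : 0 ≤ 1 / Real.sqrt 2 := by positivity
    nlinarith
  exact (abs_le_of_sq_le_sq' (by rwa [sq_abs] at h4) (by positivity)) |> fun h => abs_le.2 h

include hM hσ hU hρ hx in
/-- bound for an irreducible twist at height zero -/
theorem irr_dim (hi : ρ.IsIrreducible) (hτ : τ = 0) (hn : 2 ≤ n)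
    {η : ℝ} (hη : 0 < η) : ∀ᶠ ε : ℝ in 𝓝[>] 0,
      |x ε| ≤ 1 - ((n : ℝ) - 2) ^ 2 / (2 * Nat.card (GK F ⧸ U)) + η := by
  classical
  have hN : NormSys (nm F) := normSys
  have hn' : (2 : ℝ) ≤ n := by exact_mod_cast hn
  have h1 := refined hN (tr (1 / 2) α) (gg σ ρ τ) (fun v => if σ v ∈ U then (n : ℝ) - 2 else 0)
    (tr_le_two α) (abs_gg_le U σ ρ hρ τ)
    (fun v => by
      split_ifs
      · linarith
      · exact le_rfl)
    (fun v => by
      split_ifs with h
      · have e : gg σ ρ τ v = n := by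
          unfold gg
          have h2 : ρ (σ v)⁻¹ = 1 := hρ _ (U.inv_mem h)
          have h3 : ρ.character (σ v)⁻¹ = n := by
            unfold Representation.character
            rw [h2, LinearMap.trace_one]
            simp
          have h4 : zz τ v = 1 := by
            unfold zz
            rw [hτ]
            simp
          rw [h3, h4, mul_one, Complex.natCast_re]
        rw [e, abs_of_nonneg (Nat.cast_nonneg n)]
        exact le_max_left _ _
      · exact le_max_right _ _)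
    hM (γ := pair ρ τ ρ τ) (by
      have := pair_lim U hU σ hσ ρ hρ τ ρ hρ τ
      simpa only [← sq] using this)
    (triv_lim U hU σ hσ _) x hx hη
  filter_upwards [h1] with ε h2
  refine h2.trans ?_
  have h3 := pair_self_le U ρ hρ hi τ
  have h4 : ((n : ℝ) - 2) ^ 2 / (2 * Nat.card (GK F ⧸ U)) =
      ((n : ℝ) - 2) ^ 2 / Nat.card (GK F ⧸ U) / 2 := by
    rw [div_div, mul_comm]
  rw [h4]
  linarith

end

end Pool.Agent.Y677.SM
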