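import Pool.Agent.Y677.SM.Core
import Pool.Agent.W353.L1.EC

/-! Elliptic curves: the mean square of the traces of Frobenius in the two normalisations. -/

set_option autoImplicit false
set_option linter.unusedSectionVars false

namespace Pool.Agent.Y677.SM

open Complex Filter Topology ComplexConjugate Pool.Agent.H341R2 NumberField IsDedekindDomain
  Pool.Agent.W401.Cheb Pool.Agent.W540.BE Pool.Agent.W353.L1 Polynomial

section
variable {F : Type} [Field F] [NumberField F]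

/-- The Frobenius eigenvalues of an elliptic curve, with their sum. -/
theorem ec_main' (W : WeierstrassCurve (𝓞 F)) (hΔ : W.Δ ≠ 0)
    {κ : Type*} (n : κ → ℕ)
    (ρ : ∀ k, Representation ℂ (GK F) (Fin (n k) → ℂ))
    (B : κ → HeightOneSpectrum (𝓞 F) → Polynomial ℂ)
    (hB : ∀ k, ∀ᶠ v in cofinite, ∀ σ : GK F, IsFrob v σ → ∀ z : ℂ,
      (B k v).eval z = LinearMap.det (1 - ((trv W v : ℂ) * z) • ρ k σ⁻¹ +
        (((nm F v : ℕ) : ℂ) * z ^ 2) • (ρ k σ⁻¹) ^ 2)) :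
    ∃ α : HeightOneSpectrum (𝓞 F) → Fin 2 → ℂ,
      (∀ᶠ v in cofinite, ∀ j, ‖α v j‖ = (nm F v : ℝ) ^ (1 / 2 : ℝ)) ∧
      (∀ᶠ v in cofinite, (∑ j, α v j).im = 0) ∧
      (∀ᶠ v in cofinite, ∑ j, α v j = (trv W v : ℂ)) ∧
      ∀ k, ∀ᶠ v in cofinite, ∀ σ : GK F, IsFrob v σ → ∀ z : ℂ,
        (B k v).eval z = ∏ j, LinearMap.det (1 - (α v j * z) • ρ k σ⁻¹) := by
  have h6 : (6 : 𝓞 F) ≠ 0 := by norm_num
  have hgood : ∀ᶠ v : HeightOneSpectrum (𝓞 F) in cofinite,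
      (6 : 𝓞 F) ∉ v.asIdeal ∧ W.Δ ∉ v.asIdeal := by
    rw [Filter.eventually_cofinite]
    refine ((finite_mem_prime h6).union (finite_mem_prime hΔ)).subset fun v hv => ?_
    rw [Set.mem_ofPred_eq, not_and_or, not_not, not_not] at hv
    exact hv
  have hex : ∀ v : HeightOneSpectrum (𝓞 F), ∃ α : Fin 2 → ℂ,
      ((6 : 𝓞 F) ∉ v.asIdeal ∧ W.Δ ∉ v.asIdeal) →
        (∀ j, ‖α j‖ = (nm F v : ℝ) ^ (1 / 2 : ℝ)) ∧ α 0 + α 1 = (trv W v : ℂ) ∧
          α 0 * α 1 = ((nm F v : ℕ) : ℂ) := by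
    intro v
    by_cases h : (6 : 𝓞 F) ∉ v.asIdeal ∧ W.Δ ∉ v.asIdeal
    · have hpos : (0 : ℝ) < nm F v := by
        have := two_le_nm v
        exact_mod_cast (by omega : 0 < nm F v)
      obtain ⟨α, h1, h2, h3⟩ := exists_roots hpos (hasse_v W v h.1 h.2)
      refine ⟨α, fun _ => ⟨h1, ?_, ?_⟩⟩
      · rw [h2]; simp
      · rw [h3]; simp
    · exact ⟨0, fun h' => absurd h' h⟩
  choose α hα using hex
  refine ⟨α, hgood.mono fun v hv => (hα v hv).1, hgood.mono fun v hv => ?_,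
    hgood.mono fun v hv => ?_, fun k => ?_⟩
  · rw [Fin.sum_univ_two, (hα v hv).2.1, Complex.intCast_im]
  · rw [Fin.sum_univ_two, (hα v hv).2.1]
  · filter_upwards [hgood, hB k] with v h1 h2
    intro σ hσ z
    rw [det_two, (hα v h1).2.1, (hα v h1).2.2]
    exact h2 σ hσ z

/-- a bounded function changed at finitely many primes -/
theorem EP_change {P : Type*} {N : P → ℕ} (hN : NormSys N) {φ ψ : P → ℝ} {B : ℝ}
    (hφ : ∀ p, |φ p| ≤ B) (h : ∀ᶠ p in cofinite, φ p = ψ p) :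
    ∃ C : ℝ, ∀ ε : ℝ, 0 < ε → |EP N ε φ - EP N ε ψ| ≤ C := by
  classical
  have hfin : {p | ¬ φ p = ψ p}.Finite := by rwa [Filter.eventually_cofinite] at h
  set S := hfin.toFinset with hS
  set r : P → ℝ := fun p => φ p - ψ p with hr
  have hr0 : ∀ p, p ∉ S → r p = 0 := by
    intro p hp
    rw [hS, Set.Finite.mem_toFinset, Set.mem_ofPred_eq, not_not] at hp
    rw [hr]
    simp only
    rw [hp, sub_self]
  obtain ⟨D, hD⟩ : ∃ D : ℝ, ∀ p, |r p| ≤ D := by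
    refine ⟨∑ p ∈ S, |r p|, fun p => ?_⟩
    by_cases hp : p ∈ S
    · exact Finset.single_le_sum (f := fun p => |r p|) (fun p _ => abs_nonneg _) hp
    · rw [hr0 p hp, abs_zero]
      exact Finset.sum_nonneg fun p _ => abs_nonneg _
  refine ⟨S.card * D, fun ε hε => ?_⟩
  have h1 : EP N ε φ - EP N ε ψ = EP N ε r := by
    have h2 : ∀ p, ψ p = φ p + (-1) * r p := fun p => by rw [hr]; ring
    have h3 : ∀ p, |(-1) * r p| ≤ D := fun p => by
      rw [abs_mul, abs_neg, abs_one, one_mul]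
      exact hD p
    rw [EP_congr h2, EP_add hN hε hφ h3, EP_const_mul]
    ring
  rw [h1]
  exact EP_finsupp hN S r hr0 _ hD hε

theorem log_tendsto : Tendsto (fun ε : ℝ => Real.log (1 / ε)) (𝓝[>] 0) atTop := by
  have h1 := tendsto_neg_atBot_atTop.comp Real.tendsto_log_nhdsGT_zero
  refine h1.congr fun ε => ?_
  rw [one_div, Real.log_inv]
  rfl

/-- change of the normalisation -/
theorem norm_change {y ℓ : ℝ → ℝ} {C a : ℝ} (hC : ∀ ε : ℝ, 0 < ε → |y ε - ℓ ε| ≤ C)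
    (hy : ∃ M : ℝ, ∀ᶠ ε : ℝ in 𝓝[>] 0, |y ε| ≤ M * lam ε) :
    Tendsto (fun ε => y ε / lam ε) (𝓝[>] 0) (𝓝 a) ↔
      Tendsto (fun ε => ℓ ε / Real.log (1 / ε)) (𝓝[>] 0) (𝓝 a) := by
  obtain ⟨M, hM⟩ := hy
  have h1 := size_compare hM (C := C) (ℓ := ℓ) (by
    filter_upwards [self_mem_nhdsWithin] with ε hε
    exact hC ε hε)
  constructor
  · intro h
    have := h.sub h1
    simpa using this
  · intro h
    have := h1.add h
    simpa using this

theorem EP_lam_bound {φ : HeightOneSpectrum (𝓞 F) → ℝ} {B : ℝ} (hφ : ∀ v, |φ v| ≤ B) :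
    ∃ M : ℝ, ∀ᶠ ε : ℝ in 𝓝[>] 0, |EP (nm F) ε φ| ≤ M * lam ε := by
  have hN : NormSys (nm F) := normSys
  refine ⟨2 * |B|, ?_⟩
  filter_upwards [(EP_one F).eventually_lt_const (by norm_num : (1 : ℝ) < 2),
    lam_tendsto.eventually_gt_atTop 0, self_mem_nhdsWithin] with ε h1 h2 h3
  have hε : (0 : ℝ) < ε := h3
  rw [div_lt_iff₀ h2] at h1
  have hb : ∀ v, |φ v| ≤ |B| := fun v => (hφ v).trans (le_abs_self B)
  have h4 : |EP (nm F) ε φ| ≤ |B| * EP (nm F) ε fun _ => 1 := by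
    rw [abs_le]
    constructor
    · have h7 := EP_le hN hε (φ := fun v => (-1) * φ v) (B := |B|)
        (fun v => by rw [abs_mul, abs_neg, abs_one, one_mul]; exact hb v) (b := |B|)
        (fun v => by have := (abs_le.1 (hb v)).1; linarith)
      rw [EP_const_mul] at h7
      linarith
    · exact EP_le hN hε hb fun v => (le_abs_self _).trans (hb v)
  refine h4.trans ?_
  calc |B| * EP (nm F) ε (fun _ => 1) ≤ |B| * (2 * lam ε) :=
        mul_le_mul_of_nonneg_left h1.le (abs_nonneg _)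
    _ = _ := by ring

/-- the normalised trace -/
theorem tr_eq_trv {α : HeightOneSpectrum (𝓞 F) → Fin 2 → ℂ} {W : WeierstrassCurve (𝓞 F)}
    (h1 : ∀ᶠ v in cofinite, ∀ j, ‖α v j‖ = (nm F v : ℝ) ^ (1 / 2 : ℝ))
    (h2 : ∀ᶠ v in cofinite, ∑ j, α v j = (trv W v : ℂ)) :
    ∀ᶠ v in cofinite, tr (1 / 2) α v = (trv W v : ℝ) / Real.sqrt (nm F v) := by
  filter_upwards [h1, h2] with v h3 h4
  have h5 : (∑ j, α v j).im = 0 := by rw [h4, Complex.intCast_im]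
  unfold tr
  rw [if_pos ⟨h3, h5⟩, h4, Complex.intCast_re, Real.rpow_neg (Nat.cast_nonneg _),
    ← Real.sqrt_eq_rpow, div_eq_mul_inv]

/-- the mean square in the two normalisations -/
theorem mean_square_iff {α : HeightOneSpectrum (𝓞 F) → Fin 2 → ℂ} {W : WeierstrassCurve (𝓞 F)}
    (h1 : ∀ᶠ v in cofinite, ∀ j, ‖α v j‖ = (nm F v : ℝ) ^ (1 / 2 : ℝ))
    (h2 : ∀ᶠ v in cofinite, ∑ j, α v j = (trv W v : ℂ)) (a : ℝ) :
    Tendsto (fun ε : ℝ => (EP (nm F) ε fun v => (tr (1 / 2) α v) ^ 2) / lam ε)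
      (𝓝[>] 0) (𝓝 a) ↔
    Tendsto (fun ε : ℝ => (∑' v : HeightOneSpectrum (𝓞 F),
      (trv W v : ℝ) ^ 2 / (nm F v : ℝ) ^ (2 + ε)) / Real.log (1 / ε)) (𝓝[>] 0) (𝓝 a) := by
  have hN : NormSys (nm F) := normSys
  have hb : ∀ v, |(tr (1 / 2) α v) ^ 2| ≤ 4 := fun v => by
    rw [abs_of_nonneg (sq_nonneg _)]
    have := tr_le_two α v
    have h := abs_le.1 this
    nlinarith [h.1, h.2]
  have h3 : ∀ᶠ v in cofinite, (tr (1 / 2) α v) ^ 2 = (trv W v : ℝ) ^ 2 / nm F v := by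
    filter_upwards [tr_eq_trv h1 h2] with v h4
    rw [h4, div_pow, Real.sq_sqrt (Nat.cast_nonneg _)]
  obtain ⟨C, hC⟩ := EP_change hN hb h3
  have h4 : ∀ ε : ℝ, (∑' v : HeightOneSpectrum (𝓞 F),
      (trv W v : ℝ) ^ 2 / (nm F v : ℝ) ^ (2 + ε)) =
      EP (nm F) ε fun v => (trv W v : ℝ) ^ 2 / nm F v := by
    intro ε
    unfold EP
    refine tsum_congr fun v => ?_
    have h0 : (0 : ℝ) < nm F v := by exact_mod_cast nm_pos v
    rw [show (2 + ε : ℝ) = 1 + (1 + ε) by ring, Real.rpow_add h0, Real.rpow_one,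
      Real.rpow_neg h0.le]
    field_simp
  have h5 := norm_change (a := a) hC (EP_lam_bound hb)
  rw [h5]
  refine ⟨fun h => h.congr fun ε => by rw [h4], fun h => h.congr fun ε => by rw [h4]⟩

end

end Pool.Agent.Y677.SM
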