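import Pool.Agent.Y677.SM.Rep

/-! The pairing for irreducible representations. -/

set_option autoImplicit false
set_option linter.unusedSectionVars false

namespace Pool.Agent.Y677.SM

open Complex Filter Topology ComplexConjugate Pool.Agent.H341R2 NumberField IsDedekindDomain
  Pool.Agent.W401.Cheb Pool.Agent.W540.BE Pool.Agent.W353.L1

section
variable {F : Type} [Field F] [NumberField F]

open Classical in
/-- `dim Hom(ρ, ρ')` if the heights are equal -/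
noncomputable def herm {n n' : ℕ} (ρ : Representation ℂ (GK F) (Fin n → ℂ)) (τ : ℝ)
    (ρ' : Representation ℂ (GK F) (Fin n' → ℂ)) (τ' : ℝ) : ℝ :=
  if τ = τ' then (Module.finrank ℂ (ρ.IntertwiningMap ρ') : ℝ) else 0

theorem herm_lim (U : Subgroup (GK F)) [U.Normal] (hU : IsOpen (U : Set (GK F)))
    [Finite (GK F ⧸ U)] (σ : HeightOneSpectrum (𝓞 F) → GK F) (hσ : ∀ v, IsFrob v (σ v))
    {n n' : ℕ} (ρ : Representation ℂ (GK F) (Fin n → ℂ)) (h : ∀ u ∈ U, ρ u = 1) (τ : ℝ)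
    (ρ' : Representation ℂ (GK F) (Fin n' → ℂ)) (h' : ∀ u ∈ U, ρ' u = 1) (τ' : ℝ) :
    Tendsto (fun ε : ℝ => (EP (nm F) ε fun v => ((ρ.character (σ v)⁻¹ * zz τ v) *
      conj (ρ'.character (σ v)⁻¹ * zz τ' v)).re) / lam ε) (𝓝[>] 0)
      (𝓝 (herm ρ τ ρ' τ')) := by
  classical
  set ψ1 : GK F ⧸ U → ℂ := fun q => (qrep U ρ h).character q⁻¹ * (qrep U ρ' h').character q
    with hψ1
  have hc1 : ∀ a x, ψ1 (x * a * x⁻¹) = ψ1 a := by
    intro a x
    rw [hψ1]
    simp only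
    have h1 : (x * a * x⁻¹)⁻¹ = x * a⁻¹ * x⁻¹ := by group
    rw [h1, Representation.char_conj, Representation.char_conj]
  have l1 := cheb_edge U hU ψ1 hc1 (Module.finrank ℂ (ρ.IntertwiningMap ρ') : ℝ)
    (by rw [hψ1, avC_hom U ρ h ρ' h']; simp) σ hσ (τ - τ')
  have e0 : (if τ - τ' = 0 then (Module.finrank ℂ (ρ.IntertwiningMap ρ') : ℝ) else 0) =
      herm ρ τ ρ' τ' := by
    unfold herm
    simp only [sub_eq_zero]
  rw [e0] at l1
  refine l1.congr fun ε => ?_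
  congr 1
  refine EP_congr fun v => ?_
  have a1 : ψ1 (QuotientGroup.mk (σ v)) * ((nm F v : ℕ) : ℂ) ^ (-(((τ - τ' : ℝ) : ℂ) * I)) =
      (ρ.character (σ v)⁻¹ * zz τ v) * conj (ρ'.character (σ v)⁻¹ * zz τ' v) := by
    rw [map_mul, char_conj_eq U ρ' h', conj_zz]
    have a2 : zz τ v * zz (-τ') v = zz (τ - τ') v := by rw [zz_mul]; rfl
    have a3 : ((nm F v : ℕ) : ℂ) ^ (-(((τ - τ' : ℝ) : ℂ) * I)) = zz (τ - τ') v := rfl
    rw [a3, ← a2]
    have a4 : ψ1 (QuotientGroup.mk (σ v)) = ρ.character (σ v)⁻¹ * ρ'.character (σ v) := rfl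
    rw [a4]
    ring
  rw [a1]

/-- the real Gram form is at most the hermitian one -/
theorem pair_le_herm (U : Subgroup (GK F)) [U.Normal] (hU : IsOpen (U : Set (GK F)))
    [Finite (GK F ⧸ U)] {κ : Type*} (K : Finset κ) {n : κ → ℕ}
    (ρ : ∀ k, Representation ℂ (GK F) (Fin (n k) → ℂ)) (h : ∀ k, ∀ u ∈ U, ρ k u = 1)
    (τ : κ → ℝ) (c : κ → ℝ) :
    ∑ k ∈ K, ∑ l ∈ K, (c k * c l) * pair (ρ k) (τ k) (ρ l) (τ l) ≤
      ∑ k ∈ K, ∑ l ∈ K, (c k * c l) * herm (ρ k) (τ k) (ρ l) (τ l) := by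
  classical
  have hN : NormSys (nm F) := normSys
  choose σ hσ using exists_isFrob (F := F)
  have l1 : Tendsto (fun ε : ℝ => ∑ k ∈ K, ∑ l ∈ K, (c k * c l) *
      ((EP (nm F) ε fun v => gg σ (ρ k) (τ k) v * gg σ (ρ l) (τ l) v) / lam ε)) (𝓝[>] 0)
      (𝓝 (∑ k ∈ K, ∑ l ∈ K, (c k * c l) * pair (ρ k) (τ k) (ρ l) (τ l))) :=
    tendsto_finsetSum _ fun k _ => tendsto_finsetSum _ fun l _ =>
      (pair_lim U hU σ hσ (ρ k) (h k) (τ k) (ρ l) (h l) (τ l)).const_mul _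
  have l2 : Tendsto (fun ε : ℝ => ∑ k ∈ K, ∑ l ∈ K, (c k * c l) *
      ((EP (nm F) ε fun v => (((ρ k).character (σ v)⁻¹ * zz (τ k) v) *
      conj ((ρ l).character (σ v)⁻¹ * zz (τ l) v)).re) / lam ε)) (𝓝[>] 0)
      (𝓝 (∑ k ∈ K, ∑ l ∈ K, (c k * c l) * herm (ρ k) (τ k) (ρ l) (τ l))) :=
    tendsto_finsetSum _ fun k _ => tendsto_finsetSum _ fun l _ =>
      (herm_lim U hU σ hσ (ρ k) (h k) (τ k) (ρ l) (h l) (τ l)).const_mul _
  refine le_of_tendsto_of_tendsto l1 l2 ?_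
  filter_upwards [lam_tendsto.eventually_gt_atTop 0, self_mem_nhdsWithin] with ε h1 h2
  have hε : (0 : ℝ) < ε := h2
  have hu : ∀ k v, ‖(ρ k).character (σ v)⁻¹ * zz (τ k) v‖ ≤ n k := fun k v => by
    rw [norm_mul, norm_zz, mul_one]
    exact norm_char_le U (ρ k) (h k) _
  have b1 : ∀ k l v, |(c k * c l) * (gg σ (ρ k) (τ k) v * gg σ (ρ l) (τ l) v)| ≤
      |c k * c l| * ((n k : ℝ) * n l) := fun k l v => by
    rw [abs_mul, abs_mul (gg σ (ρ k) (τ k) v)]
    exact mul_le_mul_of_nonneg_left (mul_le_mul (abs_gg_le U σ (ρ k) (h k) _ v)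
      (abs_gg_le U σ (ρ l) (h l) _ v) (abs_nonneg _) (Nat.cast_nonneg _)) (abs_nonneg _)
  have b2 : ∀ k l v, |(c k * c l) * (((ρ k).character (σ v)⁻¹ * zz (τ k) v) *
      conj ((ρ l).character (σ v)⁻¹ * zz (τ l) v)).re| ≤
      |c k * c l| * ((n k : ℝ) * n l) := fun k l v => by
    rw [abs_mul]
    refine mul_le_mul_of_nonneg_left ((Complex.abs_re_le_norm _).trans ?_) (abs_nonneg _)
    rw [norm_mul, Complex.norm_conj]
    exact mul_le_mul (hu k v) (hu l v) (norm_nonneg _) (Nat.cast_nonneg _)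
  have e1 : ∑ k ∈ K, ∑ l ∈ K, (c k * c l) *
      ((EP (nm F) ε fun v => gg σ (ρ k) (τ k) v * gg σ (ρ l) (τ l) v) / lam ε) =
      (EP (nm F) ε fun v => ∑ k ∈ K, ∑ l ∈ K,
        (c k * c l) * (gg σ (ρ k) (τ k) v * gg σ (ρ l) (τ l) v)) / lam ε := by
    rw [EP_sum hN hε K (fun k v => ∑ l ∈ K, (c k * c l) * (gg σ (ρ k) (τ k) v *
      gg σ (ρ l) (τ l) v)) (fun k => ∑ l ∈ K, |c k * c l| * ((n k : ℝ) * n l))
      (fun k _ v => (Finset.abs_sum_le_sum_abs _ _).trans (Finset.sum_le_sum fun l _ => b1 k l v)),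
      Finset.sum_div]
    refine Finset.sum_congr rfl fun k _ => ?_
    rw [EP_sum hN hε K (fun l v => (c k * c l) * (gg σ (ρ k) (τ k) v *
      gg σ (ρ l) (τ l) v)) (fun l => |c k * c l| * ((n k : ℝ) * n l))
      (fun l _ v => b1 k l v), Finset.sum_div]
    refine Finset.sum_congr rfl fun l _ => ?_
    rw [EP_const_mul]
    ring
  have e2 : ∑ k ∈ K, ∑ l ∈ K, (c k * c l) *
      ((EP (nm F) ε fun v => (((ρ k).character (σ v)⁻¹ * zz (τ k) v) *
      conj ((ρ l).character (σ v)⁻¹ * zz (τ l) v)).re) / lam ε) =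
      (EP (nm F) ε fun v => ∑ k ∈ K, ∑ l ∈ K,
        (c k * c l) * (((ρ k).character (σ v)⁻¹ * zz (τ k) v) *
      conj ((ρ l).character (σ v)⁻¹ * zz (τ l) v)).re) / lam ε := by
    rw [EP_sum hN hε K (fun k v => ∑ l ∈ K, (c k * c l) *
      (((ρ k).character (σ v)⁻¹ * zz (τ k) v) * conj ((ρ l).character (σ v)⁻¹ * zz (τ l) v)).re)
      (fun k => ∑ l ∈ K, |c k * c l| * ((n k : ℝ) * n l))
      (fun k _ v => (Finset.abs_sum_le_sum_abs _ _).trans (Finset.sum_le_sum fun l _ => b2 k l v)),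
      Finset.sum_div]
    refine Finset.sum_congr rfl fun k _ => ?_
    rw [EP_sum hN hε K (fun l v => (c k * c l) * (((ρ k).character (σ v)⁻¹ * zz (τ k) v) *
      conj ((ρ l).character (σ v)⁻¹ * zz (τ l) v)).re) (fun l => |c k * c l| * ((n k : ℝ) * n l))
      (fun l _ v => b2 k l v), Finset.sum_div]
    refine Finset.sum_congr rfl fun l _ => ?_
    rw [EP_const_mul]
    ring
  rw [e1, e2]
  refine div_le_div_of_nonneg_right ?_ h1.le
  refine EP_mono hN hε (A := ∑ k ∈ K, ∑ l ∈ K, |c k * c l| * ((n k : ℝ) * n l))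
    (B := ∑ k ∈ K, ∑ l ∈ K, |c k * c l| * ((n k : ℝ) * n l))
    (fun v => (Finset.abs_sum_le_sum_abs _ _).trans (Finset.sum_le_sum fun k _ =>
      (Finset.abs_sum_le_sum_abs _ _).trans (Finset.sum_le_sum fun l _ => b1 k l v)))
    (fun v => (Finset.abs_sum_le_sum_abs _ _).trans (Finset.sum_le_sum fun k _ =>
      (Finset.abs_sum_le_sum_abs _ _).trans (Finset.sum_le_sum fun l _ => b2 k l v)))
    fun v => ?_
  -- the pointwise inequality
  set u : κ → ℂ := fun k => (ρ k).character (σ v)⁻¹ * zz (τ k) v with hu'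
  have e3 : ∑ k ∈ K, ∑ l ∈ K, (c k * c l) * (gg σ (ρ k) (τ k) v * gg σ (ρ l) (τ l) v) =
      ((∑ k ∈ K, (c k : ℂ) * u k).re) ^ 2 := by
    rw [Complex.re_sum, sq, Finset.sum_mul_sum]
    refine Finset.sum_congr rfl fun k _ => Finset.sum_congr rfl fun l _ => ?_
    rw [Complex.re_ofReal_mul, Complex.re_ofReal_mul]
    unfold gg
    ring
  have e4 : ∑ k ∈ K, ∑ l ∈ K, (c k * c l) * (((ρ k).character (σ v)⁻¹ * zz (τ k) v) *
      conj ((ρ l).character (σ v)⁻¹ * zz (τ l) v)).re =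
      ((∑ k ∈ K, (c k : ℂ) * u k) * conj (∑ k ∈ K, (c k : ℂ) * u k)).re := by
    rw [map_sum, Finset.sum_mul_sum, Complex.re_sum]
    refine Finset.sum_congr rfl fun k _ => ?_
    rw [Complex.re_sum]
    refine Finset.sum_congr rfl fun l _ => ?_
    have e5 : conj ((c l : ℂ) * u l) = (c l : ℂ) * conj (u l) := by
      rw [map_mul, Complex.conj_ofReal]
    rw [e5]
    have : (c k : ℂ) * u k * ((c l : ℂ) * conj (u l)) = ((c k * c l : ℝ) : ℂ) *
        (u k * conj (u l)) := by push_cast; ring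
    rw [this, Complex.re_ofReal_mul]
  rw [e3, e4, Complex.mul_conj, Complex.ofReal_re, Complex.normSq_apply]
  nlinarith [sq_nonneg (∑ k ∈ K, (c k : ℂ) * u k).im]

/-- the mean of the square of the imaginary part of an irreducible character -/
theorem im_mean (U : Subgroup (GK F)) [U.Normal] [Finite (GK F ⧸ U)] {n : ℕ}
    (ρ : Representation ℂ (GK F) (Fin n → ℂ)) (h : ∀ u ∈ U, ρ u = 1) (hi : ρ.IsIrreducible) :
    (Module.finrank ℂ (Representation.invariants (ρ.tprod ρ)) : ℝ) =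
      1 - 2 * avR U (fun q => ((qrep U ρ h).character q⁻¹).im ^ 2) := by
  classical
  let _ : Fintype (GK F ⧸ U) := Fintype.ofFinite _
  have h1 := avC_hom U ρ h ρ h
  have h2 := avC_tens U ρ h ρ h
  rw [finrank_end_irr ρ hi] at h1
  have hcj : ∀ q : GK F ⧸ U, (qrep U ρ h).character q = conj ((qrep U ρ h).character q⁻¹) := by
    intro q
    obtain ⟨g, rfl⟩ := QuotientGroup.mk_surjective q
    exact (char_conj_eq U ρ h g).symm
  have h3 := congrArg Complex.re h1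
  have h4 := congrArg Complex.re h2
  rw [Complex.natCast_re] at h3 h4
  have e : ∀ ψ : GK F ⧸ U → ℂ, (avC U ψ).re = avR U fun q => (ψ q).re := by
    intro ψ
    unfold avC avR
    rw [finsum_eq_sum_of_fintype, finsum_eq_sum_of_fintype]
    have : ((Nat.card (GK F ⧸ U) : ℂ))⁻¹ = (((Nat.card (GK F ⧸ U) : ℝ)⁻¹ : ℝ) : ℂ) := by
      push_cast; rfl
    rw [this, Complex.re_ofReal_mul, Complex.re_sum]
  rw [e] at h3 h4
  rw [← h4]
  have h5 : (avR U fun q => ((qrep U ρ h).character q⁻¹ * (qrep U ρ h).character q⁻¹).re) =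
      (avR U fun q => ((qrep U ρ h).character q⁻¹ * (qrep U ρ h).character q).re) -
        2 * avR U (fun q => ((qrep U ρ h).character q⁻¹).im ^ 2) := by
    unfold avR
    rw [finsum_eq_sum_of_fintype, finsum_eq_sum_of_fintype, finsum_eq_sum_of_fintype]
    have : ∑ q : GK F ⧸ U, ((qrep U ρ h).character q⁻¹ * (qrep U ρ h).character q⁻¹).re =
        ∑ q : GK F ⧸ U, ((qrep U ρ h).character q⁻¹ * (qrep U ρ h).character q).re -
          2 * ∑ q : GK F ⧸ U, ((qrep U ρ h).character q⁻¹).im ^ 2 := by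
      rw [Finset.mul_sum, ← Finset.sum_sub_distrib]
      refine Finset.sum_congr rfl fun q _ => ?_
      have h6 := hcj q
      rw [h6, Complex.mul_re, Complex.mul_re, Complex.conj_re, Complex.conj_im]
      ring
    rw [this]
    ring
  rw [h5, h3]
  simp

theorem finrank_tens_le_one (U : Subgroup (GK F)) [U.Normal] [Finite (GK F ⧸ U)] {n : ℕ}
    (ρ : Representation ℂ (GK F) (Fin n → ℂ)) (h : ∀ u ∈ U, ρ u = 1) (hi : ρ.IsIrreducible) :
    Module.finrank ℂ (Representation.invariants (ρ.tprod ρ)) ≤ 1 := by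
  have h1 := im_mean U ρ h hi
  have h2 : 0 ≤ avR U (fun q => ((qrep U ρ h).character q⁻¹).im ^ 2) :=
    avR_nonneg U fun q => sq_nonneg _
  have h3 : (Module.finrank ℂ (Representation.invariants (ρ.tprod ρ)) : ℝ) ≤ 1 := by linarith
  exact_mod_cast h3

theorem finrank_tens_zero (U : Subgroup (GK F)) [U.Normal] [Finite (GK F ⧸ U)] {n : ℕ}
    (ρ : Representation ℂ (GK F) (Fin n → ℂ)) (h : ∀ u ∈ U, ρ u = 1) (hi : ρ.IsIrreducible)
    (hr : ∃ g, (ρ.character g).im ≠ 0) :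
    Module.finrank ℂ (Representation.invariants (ρ.tprod ρ)) = 0 := by
  classical
  let _ : Fintype (GK F ⧸ U) := Fintype.ofFinite _
  have h1 := im_mean U ρ h hi
  obtain ⟨g, hg⟩ := hr
  have h2 : 0 < avR U (fun q => ((qrep U ρ h).character q⁻¹).im ^ 2) := by
    unfold avR
    rw [finsum_eq_sum_of_fintype]
    have hc : (0 : ℝ) < Nat.card (GK F ⧸ U) := by exact_mod_cast Nat.card_pos
    refine mul_pos (inv_pos.2 hc) (Finset.sum_pos' (fun q _ => sq_nonneg _)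
      ⟨QuotientGroup.mk g⁻¹, Finset.mem_univ _, ?_⟩)
    have : (qrep U ρ h).character (QuotientGroup.mk g⁻¹)⁻¹ = ρ.character g := by
      have e : ((QuotientGroup.mk g⁻¹ : GK F ⧸ U))⁻¹ = QuotientGroup.mk g := by
        rw [QuotientGroup.mk_inv, inv_inv]
      rw [e]
      rfl
    rw [this]
    exact lt_of_le_of_ne (sq_nonneg _) (Ne.symm (pow_ne_zero 2 hg))
  have h3 : (Module.finrank ℂ (Representation.invariants (ρ.tprod ρ)) : ℝ) < 1 := by linarith
  have h4 : Module.finrank ℂ (Representation.invariants (ρ.tprod ρ)) < 1 := by exact_mod_cast h3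
  omega

theorem pair_self_le (U : Subgroup (GK F)) [U.Normal] [Finite (GK F ⧸ U)] {n : ℕ}
    (ρ : Representation ℂ (GK F) (Fin n → ℂ)) (h : ∀ u ∈ U, ρ u = 1) (hi : ρ.IsIrreducible)
    (τ : ℝ) : pair ρ τ ρ τ ≤ 1 := by
  classical
  unfold pair
  rw [if_pos rfl, finrank_end_irr ρ hi]
  have h1 : (Module.finrank ℂ (Representation.invariants (ρ.tprod ρ)) : ℝ) ≤ 1 := by
    exact_mod_cast finrank_tens_le_one U ρ h hi
  split_ifs
  · push_cast
    linarith
  · norm_num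

theorem pair_self_half (U : Subgroup (GK F)) [U.Normal] [Finite (GK F ⧸ U)] {n : ℕ}
    (ρ : Representation ℂ (GK F) (Fin n → ℂ)) (h : ∀ u ∈ U, ρ u = 1) (hi : ρ.IsIrreducible)
    (τ : ℝ) (hc : τ ≠ 0 ∨ ∃ g, (ρ.character g).im ≠ 0) : pair ρ τ ρ τ = 1 / 2 := by
  classical
  unfold pair
  rw [if_pos rfl, finrank_end_irr ρ hi]
  rcases hc with hc | hc
  · have : ¬ τ = -τ := fun h => hc (by linarith)
    rw [if_neg this]
    norm_num
  · rw [finrank_tens_zero U ρ h hi hc]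
    simp

end

end Pool.Agent.Y677.SM
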