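import Pool.Agent.Y677.SM.Two

/-! Mean values of the products of the real parts of the characters with heights. -/

set_option autoImplicit false
set_option linter.unusedSectionVars false

namespace Pool.Agent.Y677.SM

open Complex Filter Topology ComplexConjugate Pool.Agent.H341R2 NumberField IsDedekindDomain
  Pool.Agent.W401.Cheb Pool.Agent.W540.BE Pool.Agent.W353.L1

section
variable {F : Type} [Field F] [NumberField F]

/-- the sum over a finite group of a function of the inverse -/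
theorem avC_inv (U : Subgroup (GK F)) [U.Normal] [Finite (GK F ⧸ U)] (ψ : GK F ⧸ U → ℂ) :
    avC U (fun q => ψ q⁻¹) = avC U ψ := by
  classical
  let _ : Fintype (GK F ⧸ U) := Fintype.ofFinite _
  unfold avC
  rw [finsum_eq_sum_of_fintype, finsum_eq_sum_of_fintype, ← Equiv.sum_comp (Equiv.inv (GK F ⧸ U))]
  congr 1
  exact Finset.sum_congr rfl fun q _ => by rw [Equiv.inv_apply, inv_inv]

theorem avC_hom (U : Subgroup (GK F)) [U.Normal] [Finite (GK F ⧸ U)] {n n' : ℕ}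
    (ρ : Representation ℂ (GK F) (Fin n → ℂ)) (h : ∀ u ∈ U, ρ u = 1)
    (σ : Representation ℂ (GK F) (Fin n' → ℂ)) (h' : ∀ u ∈ U, σ u = 1) :
    avC U (fun q => (qrep U ρ h).character q⁻¹ * (qrep U σ h').character q) =
      (Module.finrank ℂ (ρ.IntertwiningMap σ) : ℂ) := by
  rw [← ortho2 U σ h' ρ h]
  unfold avC
  congr 1
  exact finsum_congr fun q => mul_comm _ _

theorem inv_tprod (U : Subgroup (GK F)) [U.Normal] {n n' : ℕ}
    (ρ : Representation ℂ (GK F) (Fin n → ℂ)) (h : ∀ u ∈ U, ρ u = 1)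
    (σ : Representation ℂ (GK F) (Fin n' → ℂ)) (h' : ∀ u ∈ U, σ u = 1) :
    Representation.invariants ((qrep U ρ h).tprod (qrep U σ h')) =
      Representation.invariants (ρ.tprod σ) := by
  ext x
  rw [Representation.mem_invariants, Representation.mem_invariants]
  constructor
  · intro hx g
    exact hx (QuotientGroup.mk g)
  · intro hx q
    obtain ⟨g, rfl⟩ := QuotientGroup.mk_surjective q
    exact hx g

theorem avC_tens (U : Subgroup (GK F)) [U.Normal] [Finite (GK F ⧸ U)] {n n' : ℕ}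
    (ρ : Representation ℂ (GK F) (Fin n → ℂ)) (h : ∀ u ∈ U, ρ u = 1)
    (σ : Representation ℂ (GK F) (Fin n' → ℂ)) (h' : ∀ u ∈ U, σ u = 1) :
    avC U (fun q => (qrep U ρ h).character q⁻¹ * (qrep U σ h').character q⁻¹) =
      (Module.finrank ℂ (Representation.invariants (ρ.tprod σ)) : ℂ) := by
  classical
  let _ : Fintype (GK F ⧸ U) := Fintype.ofFinite _
  have hne : (Nat.card (GK F ⧸ U) : ℂ) ≠ 0 := by
    have : Nat.card (GK F ⧸ U) ≠ 0 := Nat.card_pos.ne'
    exact_mod_cast this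
  letI : Invertible (Nat.card (GK F ⧸ U) : ℂ) := invertibleOfNonzero hne
  rw [avC_inv U (fun q => (qrep U ρ h).character q * (qrep U σ h').character q)]
  have h1 := Representation.card_inv_mul_sum_char_eq_finrank
    ((qrep U ρ h).tprod (qrep U σ h'))
  rw [inv_tprod] at h1
  rw [← h1]
  unfold avC
  rw [finsum_eq_sum_of_fintype]
  congr 1
  refine Finset.sum_congr rfl fun q _ => ?_
  rw [Representation.char_tensor, Pi.mul_apply]

/-- the function of the twist -/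
noncomputable def gg (σ : HeightOneSpectrum (𝓞 F) → GK F) {n : ℕ}
    (ρ : Representation ℂ (GK F) (Fin n → ℂ)) (τ : ℝ) (v : HeightOneSpectrum (𝓞 F)) : ℝ :=
  (ρ.character (σ v)⁻¹ * zz τ v).re

open Classical in
/-- the pairing of two twists -/
noncomputable def pair {n n' : ℕ} (ρ : Representation ℂ (GK F) (Fin n → ℂ)) (τ : ℝ)
    (ρ' : Representation ℂ (GK F) (Fin n' → ℂ)) (τ' : ℝ) : ℝ :=
  ((if τ = τ' then (Module.finrank ℂ (ρ.IntertwiningMap ρ') : ℝ) else 0) +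
    (if τ = -τ' then (Module.finrank ℂ (Representation.invariants (ρ.tprod ρ')) : ℝ) else 0)) / 2

theorem abs_gg_le (U : Subgroup (GK F)) [U.Normal] [Finite (GK F ⧸ U)]
    (σ : HeightOneSpectrum (𝓞 F) → GK F) {n : ℕ}
    (ρ : Representation ℂ (GK F) (Fin n → ℂ)) (h : ∀ u ∈ U, ρ u = 1) (τ : ℝ)
    (v : HeightOneSpectrum (𝓞 F)) : |gg σ ρ τ v| ≤ n := by
  unfold gg
  refine (Complex.abs_re_le_norm _).trans ?_
  rw [norm_mul, norm_zz, mul_one]
  exact norm_char_le U ρ h _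

theorem conj_zz (τ : ℝ) (v : HeightOneSpectrum (𝓞 F)) : conj (zz τ v) = zz (-τ) v := by
  unfold zz
  rw [conj_cpow_I (nm_pos v)]
  congr 1
  push_cast
  ring

theorem zz_mul (τ τ' : ℝ) (v : HeightOneSpectrum (𝓞 F)) :
    zz τ v * zz τ' v = zz (τ + τ') v := by
  unfold zz
  have hvc : ((nm F v : ℕ) : ℂ) ≠ 0 := by
    have := nm_pos v
    exact_mod_cast this.ne'
  rw [← Complex.cpow_add _ _ hvc]
  congr 1
  push_cast
  ring

/-- **The limit of the product of two of the functions.** -/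
theorem pair_lim (U : Subgroup (GK F)) [U.Normal] (hU : IsOpen (U : Set (GK F)))
    [Finite (GK F ⧸ U)] (σ : HeightOneSpectrum (𝓞 F) → GK F) (hσ : ∀ v, IsFrob v (σ v))
    {n n' : ℕ} (ρ : Representation ℂ (GK F) (Fin n → ℂ)) (h : ∀ u ∈ U, ρ u = 1) (τ : ℝ)
    (ρ' : Representation ℂ (GK F) (Fin n' → ℂ)) (h' : ∀ u ∈ U, ρ' u = 1) (τ' : ℝ) :
    Tendsto (fun ε : ℝ => (EP (nm F) ε fun v => gg σ ρ τ v * gg σ ρ' τ' v) / lam ε) (𝓝[>] 0)
      (𝓝 (pair ρ τ ρ' τ')) := by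
  classical
  have hN : NormSys (nm F) := normSys
  set ψ1 : GK F ⧸ U → ℂ := fun q => (qrep U ρ h).character q⁻¹ * (qrep U ρ' h').character q
    with hψ1
  set ψ2 : GK F ⧸ U → ℂ := fun q => (qrep U ρ h).character q⁻¹ * (qrep U ρ' h').character q⁻¹
    with hψ2
  have hc1 : ∀ a x, ψ1 (x * a * x⁻¹) = ψ1 a := by
    intro a x
    rw [hψ1]
    simp only
    have h1 : (x * a * x⁻¹)⁻¹ = x * a⁻¹ * x⁻¹ := by group
    rw [h1, Representation.char_conj, Representation.char_conj]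
  have hc2 : ∀ a x, ψ2 (x * a * x⁻¹) = ψ2 a := by
    intro a x
    rw [hψ2]
    simp only
    have h1 : (x * a * x⁻¹)⁻¹ = x * a⁻¹ * x⁻¹ := by group
    rw [h1, Representation.char_conj, Representation.char_conj]
  have l1 := cheb_edge U hU ψ1 hc1 (Module.finrank ℂ (ρ.IntertwiningMap ρ') : ℝ)
    (by rw [hψ1, avC_hom U ρ h ρ' h']; simp) σ hσ (τ - τ')
  have l2 := cheb_edge U hU ψ2 hc2
    (Module.finrank ℂ (Representation.invariants (ρ.tprod ρ')) : ℝ)
    (by rw [hψ2, avC_tens U ρ h ρ' h']; simp) σ hσ (τ + τ')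
  have l3 := (l1.add l2).div_const 2
  have e0 : ((if τ - τ' = 0 then (Module.finrank ℂ (ρ.IntertwiningMap ρ') : ℝ) else 0) +
      (if τ + τ' = 0 then (Module.finrank ℂ (Representation.invariants (ρ.tprod ρ')) : ℝ)
        else 0)) / 2 = pair ρ τ ρ' τ' := by
    unfold pair
    simp only [sub_eq_zero, add_eq_zero_iff_eq_neg]
  rw [e0] at l3
  refine l3.congr' ?_
  filter_upwards [self_mem_nhdsWithin] with ε hε'
  have hε : (0 : ℝ) < ε := hε'
  have hn0 : ∀ g : GK F, ‖ρ.character g‖ ≤ n := fun g => norm_char_le U ρ h g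
  have hn0' : ∀ g : GK F, ‖ρ'.character g‖ ≤ n' := fun g => norm_char_le U ρ' h' g
  have b1 : ∀ v : HeightOneSpectrum (𝓞 F), |(ψ1 (QuotientGroup.mk (σ v)) *
      ((nm F v : ℕ) : ℂ) ^ (-(((τ - τ' : ℝ) : ℂ) * I))).re| ≤ n * n' := by
    intro v
    refine (Complex.abs_re_le_norm _).trans ?_
    rw [norm_mul, norm_cpow_I (nm_pos v), mul_one, hψ1]
    simp only
    rw [norm_mul]
    exact mul_le_mul (hn0 _) (hn0' _) (norm_nonneg _) (Nat.cast_nonneg _)
  have b2 : ∀ v : HeightOneSpectrum (𝓞 F), |(ψ2 (QuotientGroup.mk (σ v)) *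
      ((nm F v : ℕ) : ℂ) ^ (-(((τ + τ' : ℝ) : ℂ) * I))).re| ≤ n * n' := by
    intro v
    refine (Complex.abs_re_le_norm _).trans ?_
    rw [norm_mul, norm_cpow_I (nm_pos v), mul_one, hψ2]
    simp only
    rw [norm_mul]
    exact mul_le_mul (hn0 _) (hn0' _) (norm_nonneg _) (Nat.cast_nonneg _)
  rw [← add_div, ← EP_add hN hε b1 b2, div_div, mul_comm (lam ε) 2, ← div_div]
  congr 1
  have e1 : ∀ v : HeightOneSpectrum (𝓞 F), gg σ ρ τ v * gg σ ρ' τ' v = (1 / 2) *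
      ((ψ1 (QuotientGroup.mk (σ v)) * ((nm F v : ℕ) : ℂ) ^ (-(((τ - τ' : ℝ) : ℂ) * I))).re +
      (ψ2 (QuotientGroup.mk (σ v)) * ((nm F v : ℕ) : ℂ) ^ (-(((τ + τ' : ℝ) : ℂ) * I))).re) := by
    intro v
    have a1 : ψ1 (QuotientGroup.mk (σ v)) * ((nm F v : ℕ) : ℂ) ^ (-(((τ - τ' : ℝ) : ℂ) * I)) =
        (ρ.character (σ v)⁻¹ * zz τ v) * conj (ρ'.character (σ v)⁻¹ * zz τ' v) := by
      rw [map_mul, char_conj_eq U ρ' h', conj_zz]
      have a2 : zz τ v * zz (-τ') v = zz (τ - τ') v := by rw [zz_mul]; rfl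
      have a3 : ((nm F v : ℕ) : ℂ) ^ (-(((τ - τ' : ℝ) : ℂ) * I)) = zz (τ - τ') v := rfl
      rw [a3, ← a2]
      have a4 : ψ1 (QuotientGroup.mk (σ v)) = ρ.character (σ v)⁻¹ * ρ'.character (σ v) := rfl
      rw [a4]
      ring
    have a5 : ψ2 (QuotientGroup.mk (σ v)) * ((nm F v : ℕ) : ℂ) ^ (-(((τ + τ' : ℝ) : ℂ) * I)) =
        (ρ.character (σ v)⁻¹ * zz τ v) * (ρ'.character (σ v)⁻¹ * zz τ' v) := by
      have a3 : ((nm F v : ℕ) : ℂ) ^ (-(((τ + τ' : ℝ) : ℂ) * I)) = zz (τ + τ') v := rfl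
      rw [a3, ← zz_mul]
      have a4 : ψ2 (QuotientGroup.mk (σ v)) = ρ.character (σ v)⁻¹ * ρ'.character (σ v)⁻¹ := rfl
      rw [a4]
      ring
    rw [a1, a5]
    have key : ∀ u w : ℂ, u.re * w.re = 1 / 2 * ((u * conj w).re + (u * w).re) := by
      intro u w
      rw [Complex.mul_re, Complex.mul_re, Complex.conj_re, Complex.conj_im]
      ring
    exact key _ _
  rw [EP_congr e1, EP_const_mul]
  ring

end

end Pool.Agent.Y677.SM
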